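import Pool.Agent.Q298.NU.Kum
import Pool.Agent.Q298.EF.Gen
import Pool.Agent.Q298.MX.Rat

/-!
The canonical degree of a superelliptic curve.
-/

set_option autoImplicit false
set_option linter.overlappingInstances false
set_option linter.unusedSectionVars false

open Pool.Agent.Y191
open FF Polynomial Pool.Agent.W603.LV

namespace Pool.Agent.Q298.NU

section

variable {𝕜 K : Type} [Field 𝕜] [IsAlgClosed 𝕜] [CharZero 𝕜] [Field K] [Algebra 𝕜 K]
  {P : Place 𝕜 K}

theorem sub_ne {x : K} (hx : Transcendental 𝕜 x) (b : 𝕜) : x - algebraMap 𝕜 K b ≠ 0 := fun h =>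
  hx (by rw [sub_eq_zero.1 h]; exact isAlgebraic_algebraMap b)

/-- the value group of the rational functions -/
theorem vg_adj {x : K} {t : ℤ} (hx : Transcendental 𝕜 x)
    (h : ∀ b : 𝕜, t ∣ P.ord (x - algebraMap 𝕜 K b)) : VG P t (IntermediateField.adjoin 𝕜 {x}) := by
  have hpoly : ∀ p : 𝕜[X], p ≠ 0 → aeval x p ≠ 0 ∧ t ∣ P.ord (aeval x p) := by
    intro p hp
    obtain ⟨n, β, -, hβ⟩ := Pool.Agent.Q298.MX.split_fin p
    have h1 : aeval x p = algebraMap 𝕜 K p.leadingCoeff * ∏ i, (x - algebraMap 𝕜 K (β i)) := by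
      conv_lhs => rw [hβ]
      rw [map_mul, aeval_C, map_prod]
      simp
    have h2 : p.leadingCoeff ≠ 0 := leadingCoeff_ne_zero.2 hp
    have h3 : algebraMap 𝕜 K p.leadingCoeff ≠ 0 :=
      (map_ne_zero_iff _ (algebraMap 𝕜 K).injective).2 h2
    have h4 : ∏ i, (x - algebraMap 𝕜 K (β i)) ≠ 0 :=
      Finset.prod_ne_zero_iff.2 fun i _ => sub_ne hx _
    rw [h1]
    refine ⟨mul_ne_zero h3 h4, ?_⟩
    rw [P.ord_mul h3 h4, P.ord_const h2, zero_add,
      Pool.Agent.W602.GT.ord_prod' P _ _ fun i _ => sub_ne hx _]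
    exact Finset.dvd_sum fun i _ => h _
  intro f hf hf0
  obtain ⟨p, q, rfl⟩ := (IntermediateField.mem_adjoin_simple_iff 𝕜 f).1 hf
  have hp : p ≠ 0 := by
    rintro rfl
    simp at hf0
  have hq : q ≠ 0 := by
    rintro rfl
    simp at hf0
  rw [P.ord_div (hpoly p hp).1 (hpoly q hq).1]
  exact dvd_sub (hpoly p hp).2 (hpoly q hq).2

/-- **The ramification index.** -/
theorem ram_eq {x z π u : K} {t : ℤ} (hx : Transcendental 𝕜 x)
    (h : ∀ b : 𝕜, t ∣ P.ord (x - algebraMap 𝕜 K b)) (ht : 0 < t)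
    (hπ : π ∈ IntermediateField.adjoin 𝕜 {x}) (hπt : P.ord π = t) {m : ℕ} (hm : 0 < m) {a : ℤ}
    (hu : u ∈ IntermediateField.adjoin 𝕜 {x}) (hu0 : u ≠ 0) (huo : P.ord u = a * t)
    (hz : z ^ m = u) (hgen : IntermediateField.adjoin 𝕜 {x, z} = ⊤) :
    t * (m.gcd a.natAbs : ℕ) = m := by
  have hVG := vg_adj hx h
  obtain ⟨f, hf0, hf⟩ := P.surj
  have h2 : f ∈ IntermediateField.adjoin (IntermediateField.adjoin 𝕜 {x}) {z} := by
    have h3 := IntermediateField.adjoin_adjoin_left 𝕜 {x} {z}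
    have h4 : ({x} ∪ {z} : Set K) = {x, z} := (Set.insert_eq x {z}).symm
    rw [h4, hgen] at h3
    have h5 : f ∈ (IntermediateField.adjoin (IntermediateField.adjoin 𝕜 {x}) {z}).restrictScalars
        𝕜 := by
      rw [h3]
      trivial
    exact h5
  have h3 := hVG.radical ht hπ hπt hm hu hu0 huo hz h2 hf0
  rw [hf, mul_one] at h3
  -- the other divisibility
  have h4 : (m : ℤ) * P.ord z = a * t := by
    rw [← huo, ← hz, P.ord_pow]
  obtain ⟨g, hg⟩ : ∃ g, g = m.gcd a.natAbs := ⟨_, rfl⟩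
  rw [← hg] at h3 ⊢
  have hg0 : 0 < g := by
    rw [hg]
    exact Nat.gcd_pos_of_pos_left _ hm
  obtain ⟨M, hM⟩ : g ∣ m := by
    rw [hg]
    exact Nat.gcd_dvd_left _ _
  have hMg : m / g = M := by
    rw [hM, Nat.mul_div_cancel_left _ hg0]
  rw [hMg] at h3
  have hM0 : 0 < M := by
    rcases Nat.eq_zero_or_pos M with h0 | h0
    · rw [h0, mul_zero] at hM
      omega
    · exact h0
  obtain ⟨A, hA⟩ : (g : ℤ) ∣ a := by
    rw [hg]
    exact Int.natCast_dvd.2 (Nat.gcd_dvd_right _ _)
  have hcop : IsCoprime (M : ℤ) A := by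
    rw [Int.isCoprime_iff_gcd_eq_one]
    have h5 : Int.gcd ((g : ℤ) * M) ((g : ℤ) * A) = g * Int.gcd M A := by
      rw [Int.gcd_mul_left]
      simp
    have h6 : Int.gcd ((g : ℤ) * M) ((g : ℤ) * A) = g := by
      rw [← hA]
      have h7 : ((g : ℤ) * M) = ((m : ℕ) : ℤ) := by
        rw [hM]
        push_cast
        ring
      rw [h7, hg]
      rfl
    rw [h6] at h5
    have h8 : g * 1 = g * Int.gcd M A := by rw [mul_one]; exact h5
    exact (Nat.eq_of_mul_eq_mul_left hg0 h8).symm
  have h5 : (M : ℤ) ∣ t := by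
    have h6 : (M : ℤ) * P.ord z = A * t := by
      have h7 : (g : ℤ) * ((M : ℤ) * P.ord z) = g * (A * t) := by
        rw [← mul_assoc, ← mul_assoc, ← hA, ← h4, hM]
        push_cast
        ring
      exact mul_left_cancel₀ (by exact_mod_cast hg0.ne') h7
    exact hcop.dvd_of_dvd_mul_left ⟨_, h6.symm⟩
  have h6 : t = M := by
    have h7 := Int.le_of_dvd (by exact_mod_cast hM0) h3
    have h8 := Int.le_of_dvd ht h5
    omega
  rw [h6, hM]
  push_cast
  ring

end

section

variable {k K : Type} [Field k] [IsAlgClosed k] [CharZero k] [Field K] [Algebra k K] [IsFF k K]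

/-- **The canonical degree of a superelliptic curve.** -/
theorem can_cyc {x z : K} (hx : Transcendental k x) {n : ℕ} {b : Fin n → k}
    (hb : Function.Injective b) {a : Fin n → ℕ} {c : k} (hc : c ≠ 0) {m : ℕ} (hm : 1 ≤ m)
    (hz : z ^ m = algebraMap k K c * ∏ i, (x - algebraMap k K (b i)) ^ a i)
    (hgen : IntermediateField.adjoin k {x, z} = ⊤)
    (hW : 2 ≤ ∑ i, wtc m (a i) + wtc m (∑ i, a i)) :
    0 ≤ canDeg k K ∧ (∑ i, wtc m (a i) + wtc m (∑ i, a i) = 2 → canDeg k K = 0) := by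
  classical
  obtain ⟨W, hWd⟩ : ∃ W : ℚ, W = ∑ i, wtc m (a i) + wtc m (∑ i, a i) := ⟨_, rfl⟩
  rw [← hWd] at hW ⊢
  have hxx : x ∈ IntermediateField.adjoin k {x} := IntermediateField.mem_adjoin_simple_self k x
  have hcK : algebraMap k K c ≠ 0 := (map_ne_zero_iff _ (algebraMap k K).injective).2 hc
  obtain ⟨u, hu⟩ : ∃ u : K, u = algebraMap k K c * ∏ i, (x - algebraMap k K (b i)) ^ a i :=
    ⟨_, rfl⟩
  have hu0 : u ≠ 0 := by
    rw [hu]
    exact mul_ne_zero hcK (Finset.prod_ne_zero_iff.2 fun i _ => pow_ne_zero _ (sub_ne hx _))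
  have humem : u ∈ IntermediateField.adjoin k {x} := by
    rw [hu]
    exact mul_mem (IntermediateField.algebraMap_mem _ _) (prod_mem fun i _ => pow_mem
      (sub_mem hxx (IntermediateField.algebraMap_mem _ _)) _)
  have huord : ∀ P : Place k K, P.ord u = ∑ i, (a i : ℤ) * P.ord (x - algebraMap k K (b i)) := by
    intro P
    rw [hu, P.ord_mul hcK (Finset.prod_ne_zero_iff.2 fun i _ => pow_ne_zero _ (sub_ne hx _)),
      P.ord_const hc, zero_add, Pool.Agent.W602.GT.ord_prod' P _ _ fun i _ =>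
        pow_ne_zero _ (sub_ne hx _)]
    exact Finset.sum_congr rfl fun i _ => P.ord_pow _ _
  rw [← hu] at hz
  obtain ⟨φ, hφ⟩ : ∃ φ : K, φ = ∏ i, (x - algebraMap k K (b i)) ^ (m - m.gcd (a i)) := ⟨_, rfl⟩
  have hφord : ∀ P : Place k K, P.ord φ =
      ∑ i, ((m - m.gcd (a i) : ℕ) : ℤ) * P.ord (x - algebraMap k K (b i)) := by
    intro P
    rw [hφ, Pool.Agent.W602.GT.ord_prod' P _ _ fun i _ => pow_ne_zero _ (sub_ne hx _)]
    exact Finset.sum_congr rfl fun i _ => P.ord_pow _ _
  have hgle : ∀ i, m.gcd (a i) ≤ m := fun i => Nat.gcd_le_left _ hm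
  -- the derivation
  obtain ⟨D0, hD0⟩ := exists_der (k := k) (K := K)
  have h0 := der_ne_zero hD0 hx
  obtain ⟨D, hDd⟩ : ∃ D : Derivation k K K, D = (D0 x)⁻¹ • D0 := ⟨_, rfl⟩
  have hDt : D x = 1 := by
    rw [hDd, Derivation.coe_smul, Pi.smul_apply, smul_eq_mul, inv_mul_cancel₀ h0]
  have hD : D ≠ 0 := by
    rintro h
    rw [h] at hDt
    simp at hDt
  have hmQ : (m : ℚ) ≠ 0 := by exact_mod_cast (by omega : m ≠ 0)
  have key : ∀ P : Place k K, (m : ℚ) * vo P D + P.ord φ =
      (max (-P.ord x) 0 : ℤ) * (m * (2 - W)) := by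
    intro P
    by_cases hP : P.ord x < 0
    · -- over infinity
      have hx0 : x ≠ 0 := by
        rintro rfl
        rw [P.ord_zero] at hP
        exact lt_irrefl _ hP
      have hsub : ∀ b : k, P.ord (x - algebraMap k K b) = P.ord x := by
        intro b
        by_cases hb0 : b = 0
        · rw [hb0, map_zero, sub_zero]
        · rw [sub_eq_add_neg, ← map_neg]
          refine (P.ord_add_eq hx0 ((map_ne_zero_iff _ (algebraMap k K).injective).2
            (neg_ne_zero.2 hb0)) ?_).2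
          rw [P.ord_const (neg_ne_zero.2 hb0)]
          exact hP
      have h5 := (ord_der P hD hP.ne).2
      rw [hDt, P.ord_one] at h5
      obtain ⟨ρ, hρ⟩ : ∃ ρ : ℤ, ρ = -P.ord x := ⟨_, rfl⟩
      have hρ0 : 0 < ρ := by omega
      have hxo : P.ord x = -ρ := by omega
      have h6 : ρ * (m.gcd (-((∑ i, a i : ℕ) : ℤ)).natAbs : ℕ) = m := by
        refine ram_eq (P := P) (x := x) (z := z) (π := x⁻¹) (u := u) hx
          (fun b => ⟨-1, by rw [hsub, hxo]; ring⟩) hρ0 (inv_mem hxx)
          (by rw [P.ord_inv, hxo, neg_neg]) (by omega) humem hu0 ?_ hz hgen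
        rw [huord]
        simp only [hsub, hxo]
        rw [← Finset.sum_mul]
        push_cast
        ring
      rw [Int.natAbs_neg, Int.natAbs_natCast] at h6
      have h7 : P.ord φ = -(ρ * ∑ i, ((m - m.gcd (a i) : ℕ) : ℤ)) := by
        rw [hφord]
        simp only [hsub, hxo]
        rw [← Finset.sum_mul]
        ring
      have h8 : vo P D = ρ + 1 := by omega
      have h9 : max (-P.ord x) 0 = ρ := by rw [hxo, neg_neg]; exact max_eq_left hρ0.le
      have h10 : (m : ℚ) * W = ∑ i, ((m : ℚ) - m.gcd (a i)) + (m - m.gcd (∑ i, a i)) := by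
        rw [hWd, mul_add, Finset.mul_sum]
        unfold wtc
        congr 1
        · exact Finset.sum_congr rfl fun i _ => by field_simp
        · field_simp
      have h11 : ((∑ i, ((m - m.gcd (a i) : ℕ) : ℤ) : ℤ) : ℚ) = ∑ i, ((m : ℚ) - m.gcd (a i)) := by
        push_cast
        exact Finset.sum_congr rfl fun i _ => by rw [Nat.cast_sub (hgle i)]
      have h12 : (ρ : ℚ) * (m.gcd (∑ i, a i) : ℕ) = m := by exact_mod_cast h6
      rw [h7, h8, h9]
      have h13 : (((-(ρ * ∑ i, ((m - m.gcd (a i) : ℕ) : ℤ)) : ℤ)) : ℚ) =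
          -(ρ * ∑ i, ((m : ℚ) - m.gcd (a i))) := by
        rw [← h11]
        push_cast
        ring
      rw [h13]
      push_cast
      linear_combination (ρ : ℚ) * h10 - h12
    · -- over a finite point
      push Not at hP
      obtain ⟨a0, ha0⟩ := exists_const P (Or.inr hP : Ge P 0 x)
      have h6 := sub_ne hx a0
      have h7 := ha0.resolve_left h6
      obtain ⟨ρ, hρ⟩ : ∃ ρ : ℤ, ρ = P.ord (x - algebraMap k K a0) := ⟨_, rfl⟩
      rw [← hρ] at h7
      have hsub : ∀ b : k, P.ord (x - algebraMap k K b) = if b = a0 then ρ else 0 := by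
        intro b
        split_ifs with hb0
        · rw [hb0, hρ]
        · have hne : a0 - b ≠ 0 := sub_ne_zero.2 fun h => hb0 h.symm
          have h8 : x - algebraMap k K b = algebraMap k K (a0 - b) + (x - algebraMap k K a0) := by
            rw [map_sub]
            ring
          rw [h8, (P.ord_add_eq ((map_ne_zero_iff _ (algebraMap k K).injective).2 hne) h6 (by
            rw [P.ord_const hne, ← hρ]
            omega)).2, P.ord_const hne]
      have h8 := (ord_der P hD (f := x - algebraMap k K a0) (by omega)).2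
      rw [map_sub, hDt, Derivation.map_algebraMap, sub_zero, P.ord_one, ← hρ] at h8
      have h9 : vo P D = 1 - ρ := by omega
      have h10 : max (-P.ord x) 0 = 0 := max_eq_right (by omega)
      have hram : ∀ A : ℕ, P.ord u = (A : ℤ) * ρ → ρ * (m.gcd A : ℕ) = m := by
        intro A hA
        have h11 := ram_eq (P := P) (x := x) (z := z) (π := x - algebraMap k K a0) (u := u)
          (t := ρ) hx (fun b => by
            rw [hsub]
            split_ifs
            · exact dvd_rfl
            · exact dvd_zero _) (by omega)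
          (sub_mem hxx (IntermediateField.algebraMap_mem _ _)) hρ.symm (by omega) humem hu0
          (a := (A : ℤ)) hA hz hgen
        rwa [Int.natAbs_natCast] at h11
      rw [h9, h10, Int.cast_zero, zero_mul]
      by_cases hcase : ∃ i0, b i0 = a0
      · obtain ⟨i0, hi0⟩ := hcase
        have h11 : ∀ w : Fin n → ℤ, ∑ i, w i * P.ord (x - algebraMap k K (b i)) = w i0 * ρ := by
          intro w
          rw [Finset.sum_eq_single i0]
          · rw [hsub, if_pos hi0]
          · intro i _ hi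
            rw [hsub, if_neg, mul_zero]
            intro h12
            exact hi (hb (h12.trans hi0.symm))
          · intro h12
            exact absurd (Finset.mem_univ _) h12
        have h12 := hram (a i0) (by rw [huord, h11])
        have h13 : P.ord φ = ((m - m.gcd (a i0) : ℕ) : ℤ) * ρ := by
          rw [hφord]
          exact h11 fun i => ((m - m.gcd (a i) : ℕ) : ℤ)
        have h14 : (ρ : ℚ) * (m.gcd (a i0) : ℕ) = m := by exact_mod_cast h12
        rw [h13]
        push_cast [Nat.cast_sub (hgle i0)]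
        linear_combination -h14
      · push Not at hcase
        have h11 : ∀ w : Fin n → ℤ, ∑ i, w i * P.ord (x - algebraMap k K (b i)) = 0 := by
          intro w
          refine Finset.sum_eq_zero fun i _ => ?_
          rw [hsub, if_neg (hcase i), mul_zero]
        have h12 := hram 0 (by rw [huord, h11]; simp)
        rw [Nat.gcd_zero_right] at h12
        have h13 : P.ord φ = 0 := by
          rw [hφord]
          exact h11 fun i => ((m - m.gcd (a i) : ℕ) : ℤ)
        have h14 : (ρ : ℚ) * m = m := by exact_mod_cast h12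
        rw [h13]
        push_cast
        linear_combination -h14
  -- the sum
  obtain ⟨T0, hT0⟩ := exists_supp (k := k) (Finset.univ : Finset (Fin 1)) ![φ]
  obtain ⟨T, hT⟩ : ∃ T : Finset (Place k K), T = T0 ∪ (vo_finite hD).toFinset := ⟨_, rfl⟩
  have h1 : ∀ P : Place k K, P.ord φ ≠ 0 → P ∈ T := fun P hP => by
    rw [hT]
    exact Finset.mem_union_left _ (hT0 0 (Finset.mem_univ _) P hP)
  have h2 : ∀ P : Place k K, vo P D ≠ 0 → P ∈ T := fun P hP => by simp [hT, hP]
  have h3 := canDeg_finset hD T h2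
  have h4 := sum_ord_finset φ T h1
  have h5 : -((m : ℚ) * canDeg k K) = (∑ P ∈ T, ((max (-P.ord x) 0 : ℤ) : ℚ)) * (m * (2 - W)) := by
    rw [Finset.sum_mul, ← Finset.sum_congr rfl fun P _ => key P, Finset.sum_add_distrib,
      ← Finset.mul_sum]
    have h6 : (∑ P ∈ T, (vo P D : ℚ)) = -(canDeg k K : ℚ) := by exact_mod_cast h3
    have h7 : (∑ P ∈ T, (P.ord φ : ℚ)) = 0 := by exact_mod_cast h4
    rw [h6, h7]
    ring
  have h6 : (0 : ℚ) ≤ ∑ P ∈ T, ((max (-P.ord x) 0 : ℤ) : ℚ) :=
    Finset.sum_nonneg fun P _ => by exact_mod_cast le_max_right _ _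
  have hmp : (0 : ℚ) < m := by exact_mod_cast hm
  constructor
  · have h7 : (∑ P ∈ T, ((max (-P.ord x) 0 : ℤ) : ℚ)) * (m * (2 - W)) ≤ 0 :=
      mul_nonpos_of_nonneg_of_nonpos h6 (mul_nonpos_of_nonneg_of_nonpos hmp.le (by linarith))
    rw [← h5] at h7
    have h8 : (0 : ℚ) ≤ (m : ℚ) * canDeg k K := by linarith
    have h9 : (0 : ℚ) ≤ canDeg k K := nonneg_of_mul_nonneg_right h8 hmp
    exact_mod_cast h9
  · intro h7
    rw [h7, sub_self, mul_zero, mul_zero, neg_eq_zero] at h5
    rcases mul_eq_zero.1 h5 with h8 | h8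
    · exact absurd h8 hmQ
    · exact_mod_cast h8

end

end Pool.Agent.Q298.NU
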