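import Pool.Agent.Q298.NU.FibC
import Pool.Agent.Q298.MX.CycU
import Pool.Agent.Q298.MX.Num

/-!
The numerical dimension of fibrations in products of a fixed variety and of superelliptic curves.
-/

set_option autoImplicit false
set_option linter.unusedSectionVars false
set_option linter.overlappingInstances false

open FF Module Pool.Agent.W602.GT Pool.Agent.W603.LV Pool.Agent.W619.TW
open Pool.Agent.Y172 Pool.Agent.TH585.SV Pool.Agent.Y191
open Pool.Agent.Q298.JS Pool.Agent.Q298.EF Pool.Agent.Q298.MX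
open Polynomial

namespace Pool.Agent.Q298.NU

section

variable {K : Type} [Field K] [Algebra ℂ K] {e₀ e₁ : ℕ}

theorem aeval_sub {P A : IntermediateField ℂ K} {A₁ : IntermediateField ℂ P} {ι : A →+* A₁}
    (hι : ∀ w, (((ι w : A₁) : P) : K) = (w : K)) (p : A[X]) (w : P) :
    ((aeval w (p.map ι) : P) : K) = aeval (w : K) p := by
  have h1 : ((aeval w (p.map ι) : P) : K) = P.val (eval₂ (algebraMap A₁ P) w (p.map ι)) := rfl
  rw [h1, eval₂_map]
  change P.val.toRingHom _ = _
  rw [hom_eval₂, aeval_def]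
  congr 1
  exact RingHom.ext hι

/-- the data of cyclic covers in a subfield -/
theorem cyc_sub {P A : IntermediateField ℂ K} {A₁ : IntermediateField ℂ P} {ι : A →+* A₁}
    (hι : ∀ w, (((ι w : A₁) : P) : K) = (w : K)) {x z : Fin e₁ → P}
    (hx : IsTranscendenceBasis A₁ x) {m : Fin e₁ → ℕ} (hm : ∀ j, 1 ≤ m j)
    {G : Fin e₁ → A[X]} (hG : ∀ j, G j ≠ 0) (heq : ∀ j, (z j : K) ^ m j = aeval (x j : K) (G j))
    (hgen : IntermediateField.adjoin ℂ ((A₁ : Set P) ∪ Set.range x ∪ Set.range z) = ⊤) :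
    ∃ (s : Fin e₁ → ℕ) (g : ∀ j, Fin (s j) → A₁[X]) (a : ∀ j, Fin (s j) → ℕ) (c : Fin e₁ → P),
      CycData A₁ x z m s g a c ∧ ∀ j, wsum m s g a j = wgt (m j) (G j) := by
  classical
  have hch : CharZero A := charZero_of_injective_algebraMap (algebraMap ℂ A).injective
  choose s g a hsep hfac hw using fun j => exists_fac (hG j)
  have hinj : Function.Injective ι := ι.injective
  have h1 : ∀ j, (∏ k, (g j k).map ι).Separable := fun j => by
    rw [← Polynomial.map_prod]
    exact (hsep j).map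
  have h2 : ∀ j, ((ι (G j).leadingCoeff : A₁) : P) ∈ A₁ ∧ ((ι (G j).leadingCoeff : A₁) : P) ≠ 0 :=
    fun j => ⟨(ι (G j).leadingCoeff).2, fun h0 =>
      hG j (Polynomial.leadingCoeff_eq_zero.1 (hinj (by
        rw [map_zero]
        exact Subtype.ext h0)))⟩
  have h3 : ∀ j, z j ^ m j = ((ι (G j).leadingCoeff : A₁) : P) *
      ∏ k, aeval (x j) ((g j k).map ι) ^ a j k := fun j => by
    have h4 : aeval (x j : K) (G j) = aeval (x j : K) (C (G j).leadingCoeff * ∏ k, g j k ^ a j k) :=
      congrArg _ (hfac j)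
    apply Subtype.ext
    have h5 : (((z j ^ m j : P)) : K) = (z j : K) ^ m j := rfl
    rw [h5, heq j, h4, map_mul, Polynomial.aeval_C, map_prod]
    have h6 : ((((ι (G j).leadingCoeff : A₁) : P) *
        ∏ k, aeval (x j) ((g j k).map ι) ^ a j k : P) : K) =
        (((ι (G j).leadingCoeff : A₁) : P) : K) *
          ∏ k, ((aeval (x j) ((g j k).map ι) : P) : K) ^ a j k := by
      have h7 := map_mul P.val ((ι (G j).leadingCoeff : A₁) : P)
        (∏ k, aeval (x j) ((g j k).map ι) ^ a j k)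
      rw [map_prod] at h7
      simp only [map_pow] at h7
      exact h7
    rw [h6, hι]
    refine congrArg₂ _ rfl (Finset.prod_congr rfl fun k _ => ?_)
    rw [map_pow, aeval_sub hι]
  refine ⟨s, fun j k => (g j k).map ι, a, fun j => ((ι (G j).leadingCoeff : A₁) : P),
    ⟨hx, hm, h1, h2, h3, hgen⟩, fun j => ?_⟩
  have h5 := hw j (m j)
  unfold wsum wtc
  rw [← h5]
  simp only [natDegree_map_eq_of_injective hinj]

/-- **The numerical dimension**: a fixed factor and moving superelliptic curves. -/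
theorem mix_numC [Algebra.EssFiniteType ℂ K] {d : ℕ} (he : 1 ≤ e₁)
    (hK : Algebra.trdeg ℂ K = (d + (e₀ + e₁) : ℕ)) {L M : IntermediateField ℂ K}
    (hL : Algebra.trdeg ℂ L = d) (hM : Algebra.trdeg ℂ M = e₀) {x z : Fin e₁ → K}
    {m : Fin e₁ → ℕ} (hm : ∀ j, 1 ≤ m j) {G : Fin e₁ → (acl ℂ (L : Set K))[X]}
    (hG : ∀ j, G j ≠ 0) (heq : ∀ j, z j ^ m j = aeval (x j) (G j))
    (hgen : IntermediateField.adjoin ℂ
      ((acl ℂ (L : Set K) : Set K) ∪ (M : Set K) ∪ Set.range x ∪ Set.range z) = ⊤)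
    (hW : ∀ j, 2 ≤ wgt (m j) (G j)) (a : ℕ) (ha : NumLe ℂ M e₀ (fun _ => False) a) :
    NumLe ℂ K (d + (e₀ + e₁)) (fun _ => False)
      (d + (a + (Finset.univ.filter fun j => 2 < wgt (m j) (G j)).card)) := by
  classical
  have hcM : CharZero M := charZero_of_injective_algebraMap (algebraMap ℂ M).injective
  have hLK : Algebra.trdeg L K = (e₀ + e₁ : ℕ) := trdeg_over hL hK
  obtain ⟨b, -, hb, -⟩ := exists_crd hM
  have hbx := basis_two hb hLK (mixc_kill hm heq hgen)
  have hxi : AlgebraicIndependent L x := hbx.1.comp Sum.inr Sum.inr_injective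
  obtain ⟨P, hP⟩ : ∃ P : IntermediateField ℂ K, P = IntermediateField.adjoin ℂ
    ((acl ℂ (L : Set K) : Set K) ∪ Set.range x ∪ Set.range z) := ⟨_, rfl⟩
  have haP : acl ℂ (L : Set K) ≤ P := fun w hw => by
    rw [hP]
    exact IntermediateField.subset_adjoin _ _ (Or.inl (Or.inl hw))
  have hLP : L ≤ P := fun w hw => haP (subset_acl _ hw)
  have hxP : ∀ i, x i ∈ P := fun i => by
    rw [hP]
    exact IntermediateField.subset_adjoin _ _ (Or.inl (Or.inr ⟨i, rfl⟩))
  have hzP : ∀ i, z i ∈ P := fun i => by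
    rw [hP]
    exact IntermediateField.subset_adjoin _ _ (Or.inr ⟨i, rfl⟩)
  have hPd : Algebra.trdeg ℂ P ≤ (d + e₁ : ℕ) := by
    have hch : CharZero K := charZero_of_injective_algebraMap (algebraMap ℂ K).injective
    refine trdeg_adj hL hxi fun D hD hDx => ?_
    have hal : acl ℂ (L : Set K) ≤ cfield D := fun a ha => by
      rw [mem_cfield]
      exact der_alg0 D (S := (L : Set K)) (fun s hs => hD s hs) (mem_acl.1 ha)
    have hxc : ∀ j, x j ∈ cfield D := fun j => mem_cfield.2 (hDx j)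
    have h1 : P ≤ cfield D := by
      rw [hP, IntermediateField.adjoin_le_iff]
      rintro a ((ha | ⟨j, rfl⟩) | ⟨j, rfl⟩)
      · exact hal ha
      · exact hxc j
      · have h2 : z j ^ m j ∈ cfield D := by
          rw [heq]
          exact aeval_mem_acl hal (hxc j) _
        rw [mem_cfield, D.leibniz_pow, smul_eq_zero] at h2
        rcases h2 with h2 | h2
        · have := hm j
          omega
        · rw [smul_eq_mul] at h2
          rcases mul_eq_zero.1 h2 with h3 | h3
          · rw [eq_zero_of_pow_eq_zero h3]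
            exact zero_mem _
          · exact mem_cfield.2 h3
    exact fun z hz => mem_cfield.1 (h1 hz)
  have hPs : M ⊔ P = ⊤ := by
    rw [eq_top_iff, ← hgen, IntermediateField.adjoin_le_iff]
    rintro a (((ha | ha) | ⟨j, rfl⟩) | ⟨j, rfl⟩)
    · exact (le_sup_right : P ≤ M ⊔ P) (haP ha)
    · exact (le_sup_left : M ≤ M ⊔ P) ha
    · exact (le_sup_right : P ≤ M ⊔ P) (hxP j)
    · exact (le_sup_right : P ≤ M ⊔ P) (hzP j)
  have hPt : Algebra.trdeg ℂ P = (d + e₁ : ℕ) := le_antisymm hPd (exists_gen hL hxi hLP hxP)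
  have hPe : Algebra.EssFiniteType ℂ P := ess_sub (K := K)
  have hcP : CharZero P := charZero_of_injective_algebraMap (algebraMap ℂ P).injective
  have hKP : Algebra.trdeg ℂ K = (d + e₁ + e₀ : ℕ) := by
    rw [hK]
    congr 1
    omega
  have hPK : Algebra.trdeg P K = e₀ := trdeg_over hPt hKP
  have hbP : IsTranscendenceBasis P (fun j => (b j : K)) := by
    refine iso_basis hPK ?_ hb
    rw [eq_top_iff, ← hPs]
    exact sup_le le_sup_right (le_trans (fun z hz => subset_acl _ hz) le_sup_left)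
  have hcl := closed_of_prod hb hbP hPs
  -- the data over the subfield
  obtain ⟨L', hL'⟩ : ∃ L' : IntermediateField ℂ P, L' = IntermediateField.comap P.val L := ⟨_, rfl⟩
  have hLa : ∀ z : P, z ∈ acl ℂ (L' : Set P) ↔ (z : K) ∈ acl ℂ (L : Set K) := fun z => by
    rw [mem_A, mem_A, hL']
    exact sub_alg hLP z
  have hLt : Algebra.trdeg ℂ L' = d := by
    rw [hL', sub_trdeg hLP, hL]
  let ι : acl ℂ (L : Set K) →+* acl ℂ (L' : Set P) :=
    { toFun := fun w => ⟨⟨w, haP w.2⟩, (hLa _).2 w.2⟩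
      map_one' := rfl
      map_mul' := fun _ _ => rfl
      map_zero' := rfl
      map_add' := fun _ _ => rfl }
  have hι : ∀ w, (((ι w : acl ℂ (L' : Set P)) : P) : K) = (w : K) := fun _ => rfl
  obtain ⟨x', hx'⟩ : ∃ x' : Fin e₁ → P, ∀ i, (x' i : K) = x i := ⟨fun i => ⟨x i, hxP i⟩, fun _ => rfl⟩
  obtain ⟨z', hz'⟩ : ∃ z' : Fin e₁ → P, ∀ i, (z' i : K) = z i := ⟨fun i => ⟨z i, hzP i⟩, fun _ => rfl⟩
  have hgP : IntermediateField.adjoin ℂ
      ((acl ℂ (L' : Set P) : Set P) ∪ Set.range x' ∪ Set.range z') = ⊤ := by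
    apply IntermediateField.lift_injective P
    rw [IntermediateField.lift_adjoin, IntermediateField.lift_top]
    conv_rhs => rw [hP]
    congr 1
    rw [Set.image_union, Set.image_union, ← Set.range_comp, ← Set.range_comp]
    congr 1
    · congr 1
      · ext a
        constructor
        · rintro ⟨z, hz, rfl⟩
          exact (hLa z).1 hz
        · intro ha
          exact ⟨⟨a, haP ha⟩, (hLa _).2 ha, rfl⟩
      · exact congrArg _ (funext hx')
    · exact congrArg _ (funext hz')
  have heqP : ∀ j, z' j ^ m j = aeval (x' j) ((G j).map ι) := fun j => by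
    apply Subtype.ext
    rw [aeval_sub hι, hx', ← heq, ← hz']
    rfl
  have hxb : IsTranscendenceBasis L' x' := by
    have h1 : Algebra.trdeg L' P = e₁ := trdeg_over hLt hPt
    have hcL' : CharZero L' := charZero_of_injective_algebraMap (algebraMap ℂ L').injective
    obtain ⟨u, -, hu, -⟩ := exists_crd h1
    refine basis_of_gen hu fun D hD hDx => mixc_kill (M := ⊥) hm heqP ?_ D hD ?_ hDx
    · rw [eq_top_iff, ← hgP]
      refine IntermediateField.adjoin.mono ℂ _ _ ?_
      rintro a ((ha | ha) | ha)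
      · exact Or.inl (Or.inl (Or.inl ha))
      · exact Or.inl (Or.inr ha)
      · exact Or.inr ha
    · intro z hz
      rw [IntermediateField.mem_bot] at hz
      obtain ⟨t, rfl⟩ := hz
      exact D.map_algebraMap t
  obtain ⟨s, g, aa, c, hc, hws⟩ := cyc_sub hι (basis_acl hxb) hm hG
    (fun j => by rw [hz', hx']; exact heq j) hgP
  have hFt : Algebra.trdeg ℂ (acl ℂ (L' : Set P)) = d := by
    rw [trdeg_acl, hLt]
  have h4 := cyc_num he hPt hFt (fun w hw => by
    have h5 := acl_closed (k := ℂ) (L' : Set P)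
    by_contra hcon
    obtain ⟨D, h6, h7⟩ := Pool.Agent.Y172.exists_der_ne h5 hcon
    have h8 : D w = 0 := by
      refine der_alg0 D (S := ((acl ℂ (L' : Set P) : IntermediateField ℂ P) : Set P))
        (fun s hs => h6 s hs) ?_
      rw [IntermediateField.adjoin_self]
      exact hw
    rw [h8] at h7
    exact zero_ne_one h7) hc (fun j => by rw [hws]; exact hW j)
  simp only [hws] at h4
  have h5 := Pool.Agent.Q298.IS.prod_num hM hPt hKP hPs hcl ha h4
  have e1 : d + e₁ + e₀ = d + (e₀ + e₁) := by omega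
  have e2 : a + (d + (Finset.univ.filter fun j => 2 < wgt (m j) (G j)).card) =
      d + (a + (Finset.univ.filter fun j => 2 < wgt (m j) (G j)).card) := by omega
  rw [e1, e2] at h5
  exact h5

end

end Pool.Agent.Q298.NU
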