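import Pool.Agent.Q298.NU.Fib
import Pool.Agent.Q298.MX.Dbl
import Pool.Agent.Q298.MX.Num

/-!
The numerical dimension of fibrations in products of a fixed variety and of double covers of any
degree.
-/

set_option autoImplicit false
set_option linter.unusedSectionVars false
set_option linter.overlappingInstances false

open FF Module Pool.Agent.W602.GT Pool.Agent.W603.LV Pool.Agent.W619.TW
open Pool.Agent.Y172 Pool.Agent.TH585.SV Pool.Agent.Y191
open Pool.Agent.Q298.JS Pool.Agent.Q298.EF Pool.Agent.Q298.MX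
open Polynomial

namespace Pool.Agent.Q298.NU

section

variable {K : Type} [Field K] [Algebra ℂ K] {e : ℕ} {L : IntermediateField ℂ K}

/-- the number of odd roots in an extension -/
theorem odd_map {P : IntermediateField ℂ K} {p : P[X]} (hp : p ≠ 0) :
    oddRoots (p.map (algebraMap P K)) = oddRoots p := by
  obtain ⟨c, f, h, hc0, -, hf, hfs, -, hh0, -, hF⟩ := sqf_alg (K := P) ⊤ p hp
    (fun i => isAlgebraic_algebraMap (⟨p.coeff i, trivial⟩ : (⊤ : IntermediateField ℂ P)))
  have hinj : Function.Injective (algebraMap P K) := (algebraMap P K).injective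
  have h1 : p.map (algebraMap P K) = C (algebraMap P K c) * f.map (algebraMap P K) *
      (h.map (algebraMap P K)) ^ 2 := by
    conv_lhs => rw [hF]
    rw [Polynomial.map_mul, Polynomial.map_mul, Polynomial.map_pow, Polynomial.map_C]
  rw [h1, odd_eq ((map_ne_zero_iff _ hinj).2 hc0) (hf.map _) hfs.map
    ((Polynomial.map_ne_zero_iff hinj).2 hh0), natDegree_map, hF, odd_eq hc0 hf hfs hh0]

/-- the data of the double covers -/
theorem dbl_data {x y : Fin e → K} (hx : IsTranscendenceBasis L x)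
    {F : Fin e → K[X]} (hF0 : ∀ j, F j ≠ 0) (hFa : ∀ j i, IsAlgebraic L ((F j).coeff i))
    (hxy : ∀ j, y j ^ 2 = (F j).eval (x j))
    (hgen : IntermediateField.adjoin ℂ ({a | IsAlgebraic L a} ∪ Set.range x ∪ Set.range y) = ⊤)
    (h3 : ∀ j, 3 ≤ oddRoots (F j)) :
    ∃ (f : Fin e → K[X]) (c z : Fin e → K), HypData L f c x z ∧
      (∀ j, oddRoots (F j) = (f j).natDegree) ∧
      IntermediateField.adjoin ℂ ({a | IsAlgebraic L a} ∪ Set.range x ∪ Set.range z) = ⊤ := by
  classical
  have hch : CharZero K := charZero_of_injective_algebraMap (algebraMap ℂ K).injective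
  choose c f h hc0 hca hf hfs hfa hh0 hha hF using fun j => sqf_alg L (F j) (hF0 j) (hFa j)
  have hod : ∀ j, oddRoots (F j) = (f j).natDegree := fun j => by
    rw [hF, odd_eq (hc0 j) (hf j) (hfs j) (hh0 j)]
  have hdeg : ∀ j, 3 ≤ (f j).natDegree := fun j => by rw [← hod]; exact h3 j
  have hhx : ∀ j, (h j).eval (x j) ≠ 0 := by
    intro j h0
    obtain ⟨D, hD⟩ := Pool.Agent.W602.GT.exists_der (L := L) x hx (fun i => if j = i then 1 else 0)
    have htr : ¬ IsAlgebraic (algebraicClosure L K) (x j) := by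
      intro h1
      have h2 := Pool.Agent.TH585.SV.der_alg D (h1.restrictScalars L)
      rw [hD, if_pos rfl] at h2
      exact one_ne_zero h2
    apply htr
    obtain ⟨h₀, hh₀⟩ : ∃ h₀ : (algebraicClosure L K)[X],
        h₀.map (algebraMap (algebraicClosure L K) K) = h j := by
      refine (mem_lifts _).1 ((lifts_iff_coeff_lifts _).2 fun i => ?_)
      exact ⟨⟨(h j).coeff i, mem_algebraicClosure_iff.2 (hha j i)⟩, rfl⟩
    refine ⟨h₀, ?_, ?_⟩
    · rintro rfl
      rw [Polynomial.map_zero] at hh₀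
      exact hh0 j hh₀.symm
    · rw [aeval_def, ← eval_map, hh₀]
      exact h0
  refine ⟨f, c, fun j => y j / (h j).eval (x j), fun j => ⟨hfa j, hf j, hfs j, hdeg j, hca j,
    hc0 j, ?_⟩, hod, ?_⟩
  · have := hhx j
    rw [div_pow, hxy, hF, eval_mul, eval_mul, eval_pow, eval_C]
    field_simp
  · rw [eq_top_iff, ← hgen, IntermediateField.adjoin_le_iff]
    obtain ⟨A, hA⟩ : ∃ A : IntermediateField ℂ K,
      A = IntermediateField.adjoin ℂ ({a | IsAlgebraic L a} ∪ Set.range x ∪
        Set.range fun j => y j / (h j).eval (x j)) := ⟨_, rfl⟩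
    rw [← hA]
    have hA1 : ∀ a, IsAlgebraic L a → a ∈ A := fun a ha => by
      rw [hA]
      exact IntermediateField.subset_adjoin _ _ (Or.inl (Or.inl ha))
    have hA2 : ∀ j, x j ∈ A := fun j => by
      rw [hA]
      exact IntermediateField.subset_adjoin _ _ (Or.inl (Or.inr ⟨j, rfl⟩))
    have hA3 : ∀ j, y j / (h j).eval (x j) ∈ A := fun j => by
      rw [hA]
      exact IntermediateField.subset_adjoin _ _ (Or.inr ⟨j, rfl⟩)
    have hA4 : ∀ j, (h j).eval (x j) ∈ A := fun j => by
      rw [eval_eq_sum_range]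
      exact sum_mem fun i _ => mul_mem (hA1 _ (hha j i)) (pow_mem (hA2 j) i)
    rintro a ((ha | ⟨j, rfl⟩) | ⟨j, rfl⟩)
    · exact hA1 a ha
    · exact hA2 j
    · have h1 := mul_mem (hA3 j) (hA4 j)
      rwa [div_mul_cancel₀ _ (hhx j)] at h1

/-- **The numerical dimension of fibre products of double covers.** -/
theorem dbl_num [Algebra.EssFiniteType ℂ K] {d : ℕ} (he : 1 ≤ e)
    (hK : Algebra.trdeg ℂ K = (d + e : ℕ)) (hL : Algebra.trdeg ℂ L = d)
    {x y : Fin e → K} (hx : IsTranscendenceBasis L x)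
    {F : Fin e → K[X]} (hF0 : ∀ j, F j ≠ 0) (hFa : ∀ j i, IsAlgebraic L ((F j).coeff i))
    (hxy : ∀ j, y j ^ 2 = (F j).eval (x j))
    (hgen : IntermediateField.adjoin ℂ ({a | IsAlgebraic L a} ∪ Set.range x ∪ Set.range y) = ⊤)
    (h3 : ∀ j, 3 ≤ oddRoots (F j)) :
    NumLe ℂ K (d + e) (fun _ => False)
      (d + (Finset.univ.filter fun j => 5 ≤ oddRoots (F j)).card) := by
  obtain ⟨f, c, z, h1, h2, h4⟩ := dbl_data hx hF0 hFa hxy hgen h3
  have h5 := totalG he hK hL hx h1 h4
  simp only [← h2] at h5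
  exact h5

end

section

variable {K : Type} [Field K] [Algebra ℂ K] {e₀ e₁ : ℕ}

/-- **The numerical dimension**: a fixed factor and moving double covers of any degree. -/
theorem mix_numG [Algebra.EssFiniteType ℂ K] {d : ℕ} (he : 1 ≤ e₁)
    (hK : Algebra.trdeg ℂ K = (d + (e₀ + e₁) : ℕ)) {L M : IntermediateField ℂ K}
    (hL : Algebra.trdeg ℂ L = d) (hM : Algebra.trdeg ℂ M = e₀) {x y : Fin e₁ → K}
    {F : Fin e₁ → K[X]} (hF0 : ∀ j, F j ≠ 0) (hFa : ∀ j i, IsAlgebraic L ((F j).coeff i))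
    (hxy : ∀ j, y j ^ 2 = (F j).eval (x j))
    (hgen : IntermediateField.adjoin ℂ
      ({a | IsAlgebraic L a} ∪ (M : Set K) ∪ Set.range x ∪ Set.range y) = ⊤)
    (h3 : ∀ j, 3 ≤ oddRoots (F j)) (a : ℕ) (ha : NumLe ℂ M e₀ (fun _ => False) a) :
    NumLe ℂ K (d + (e₀ + e₁)) (fun _ => False)
      (d + (a + (Finset.univ.filter fun j => 5 ≤ oddRoots (F j)).card)) := by
  classical
  have hcM : CharZero M := charZero_of_injective_algebraMap (algebraMap ℂ M).injective
  have hLK : Algebra.trdeg L K = (e₀ + e₁ : ℕ) := trdeg_over hL hK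
  obtain ⟨b, -, hb, -⟩ := exists_crd hM
  have hbx := basis_two hb hLK (mix_kill hFa hxy hgen)
  have hxi : AlgebraicIndependent L x := hbx.1.comp Sum.inr Sum.inr_injective
  obtain ⟨P, hP, hPd, hPs⟩ := mix_P hL hLK hM hFa hxy hgen
  have hLP : L ≤ P := fun z hz => by
    rw [hP]
    exact IntermediateField.subset_adjoin _ _
      (Or.inl (Or.inl (isAlgebraic_algebraMap (⟨z, hz⟩ : L))))
  have haP : ∀ a, IsAlgebraic L a → a ∈ P := fun a ha => by
    rw [hP]
    exact IntermediateField.subset_adjoin _ _ (Or.inl (Or.inl ha))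
  have hxP : ∀ i, x i ∈ P := fun i => by
    rw [hP]
    exact IntermediateField.subset_adjoin _ _ (Or.inl (Or.inr ⟨i, rfl⟩))
  have hyP : ∀ i, y i ∈ P := fun i => by
    rw [hP]
    exact IntermediateField.subset_adjoin _ _ (Or.inr ⟨i, rfl⟩)
  have hPt : Algebra.trdeg ℂ P = (d + e₁ : ℕ) := le_antisymm hPd (exists_gen hL hxi hLP hxP)
  have hPe : Algebra.EssFiniteType ℂ P := ess_sub (K := K)
  have hcP : CharZero P := charZero_of_injective_algebraMap (algebraMap ℂ P).injective
  have hKP : Algebra.trdeg ℂ K = (d + e₁ + e₀ : ℕ) := by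
    rw [hK]
    congr 1
    omega
  have hPK : Algebra.trdeg P K = e₀ := trdeg_over hPt hKP
  have hbP : IsTranscendenceBasis P (fun j => (b j : K)) := by
    refine iso_basis hPK ?_ hb
    rw [eq_top_iff, ← hPs]
    exact sup_le le_sup_right (le_trans (fun z hz => subset_acl _ hz) le_sup_left)
  have hcl := closed_of_prod hb hbP hPs
  -- the data over the subfield
  obtain ⟨L', hL'⟩ : ∃ L' : IntermediateField ℂ P, L' = IntermediateField.comap P.val L := ⟨_, rfl⟩
  have hLa : ∀ z : P, IsAlgebraic L' z ↔ IsAlgebraic L (z : K) := fun z => by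
    rw [hL']
    exact sub_alg hLP z
  have hLt : Algebra.trdeg ℂ L' = d := by
    rw [hL', sub_trdeg hLP, hL]
  obtain ⟨G, hG⟩ : ∃ G : Fin e₁ → P[X], ∀ j, (G j).map (algebraMap P K) = F j := by
    have h1 : ∀ j, ∃ G : P[X], G.map (algebraMap P K) = F j := fun j =>
      (mem_lifts _).1 ((lifts_iff_coeff_lifts _).2 fun i => ⟨⟨_, haP _ (hFa j i)⟩, rfl⟩)
    choose G hG using h1
    exact ⟨G, hG⟩
  obtain ⟨x', hx'⟩ : ∃ x' : Fin e₁ → P, ∀ i, (x' i : K) = x i := ⟨fun i => ⟨x i, hxP i⟩, fun _ => rfl⟩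
  obtain ⟨y', hy'⟩ : ∃ y' : Fin e₁ → P, ∀ i, (y' i : K) = y i := ⟨fun i => ⟨y i, hyP i⟩, fun _ => rfl⟩
  have hG0 : ∀ j, G j ≠ 0 := fun j h0 => hF0 j (by rw [← hG, h0, Polynomial.map_zero])
  have hodd : ∀ j, oddRoots (F j) = oddRoots (G j) := fun j => by
    rw [← hG, odd_map (hG0 j)]
  have hGa : ∀ j i, IsAlgebraic L' ((G j).coeff i) := fun j i => by
    rw [hLa]
    have h1 : ((G j).coeff i : K) = (F j).coeff i := by
      rw [← hG, coeff_map]
      rfl
    rw [h1]
    exact hFa j i
  have hxyP : ∀ j, y' j ^ 2 = (G j).eval (x' j) := fun j => by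
    apply Subtype.ext
    have h1 : (((G j).eval (x' j) : P) : K) = (F j).eval (x j) := by
      rw [← hG, ← hx', eval_map]
      exact (Polynomial.eval₂_at_apply (algebraMap P K) (x' j)).symm
    change ((y' j ^ 2 : P) : K) = _
    rw [h1, ← hxy, IntermediateField.coe_pow, hy']
  have hgP : IntermediateField.adjoin ℂ
      ({a | IsAlgebraic L' a} ∪ Set.range x' ∪ Set.range y') = ⊤ := by
    apply IntermediateField.lift_injective P
    rw [IntermediateField.lift_adjoin, IntermediateField.lift_top]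
    conv_rhs => rw [hP]
    congr 1
    rw [Set.image_union, Set.image_union, ← Set.range_comp, ← Set.range_comp]
    congr 1
    · congr 1
      · ext a
        constructor
        · rintro ⟨z, hz, rfl⟩
          exact (hLa z).1 hz
        · intro ha
          exact ⟨⟨a, haP a ha⟩, (hLa _).2 ha, rfl⟩
      · exact congrArg _ (funext hx')
    · exact congrArg _ (funext hy')
  have hxb : IsTranscendenceBasis L' x' := by
    have h1 : Algebra.trdeg L' P = e₁ := trdeg_over hLt hPt
    have hcL' : CharZero L' := charZero_of_injective_algebraMap (algebraMap ℂ L').injective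
    obtain ⟨u, -, hu, -⟩ := exists_crd h1
    refine basis_of_gen hu fun D hD hDx => mix_kill (M := ⊥) hGa hxyP ?_ D hD ?_ hDx
    · rw [eq_top_iff, ← hgP]
      refine IntermediateField.adjoin.mono ℂ _ _ ?_
      rintro a ((ha | ha) | ha)
      · exact Or.inl (Or.inl (Or.inl ha))
      · exact Or.inl (Or.inr ha)
      · exact Or.inr ha
    · intro z hz
      rw [IntermediateField.mem_bot] at hz
      obtain ⟨t, rfl⟩ := hz
      exact D.map_algebraMap t
  have h4 := dbl_num he hPt hLt hxb hG0 hGa hxyP hgP (fun j => by rw [← hodd]; exact h3 j)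
  simp only [← hodd] at h4
  have h5 := Pool.Agent.Q298.IS.prod_num hM hPt hKP hPs hcl ha h4
  have e1 : d + e₁ + e₀ = d + (e₀ + e₁) := by omega
  have e2 : a + (d + (Finset.univ.filter fun j => 5 ≤ oddRoots (F j)).card) =
      d + (a + (Finset.univ.filter fun j => 5 ≤ oddRoots (F j)).card) := by omega
  rw [e1, e2] at h5
  exact h5

end

end Pool.Agent.Q298.NU
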