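import Pool.Agent.Q298.NU.Tot
import Pool.Agent.Q298.EF.Fib
import Pool.Agent.TH585.SV.Hyp2

/-! The numerical dimension of a fibre product of double covers of positive genus: concrete form. -/

set_option autoImplicit false
set_option linter.overlappingInstances false
set_option linter.unusedSectionVars false

open Polynomial FF IntermediateField Pool.Agent.W603.LV Pool.Agent.W619.PQ Pool.Agent.W619.PL
  Pool.Agent.W619.TW Pool.Agent.Y174 Pool.Agent.TH585.SV

namespace Pool.Agent.Q298.NU

open Pool.Agent.Q298.EF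

/-- the geometric generic fibre exists -/
theorem num_fibG {L K : Type} [Field L] [Field K] [Algebra ℂ L] [Algebra ℂ K] [Algebra L K]
    [IsScalarTower ℂ L K] [Algebra.EssFiniteType ℂ K]
    (hcl : ∀ x : K, IsIntegral L x → ∃ y : L, algebraMap L K y = x)
    {d r : ℕ} (hL : Algebra.trdeg ℂ L = d) (hn : Algebra.trdeg ℂ K = (d + (r + 1) : ℕ))
    {x z : Fin (r + 1) → K} (hx : IsTranscendenceBasis L x) {f : Fin (r + 1) → L[X]}
    (hfs : ∀ i, (f i).Separable) (hd : ∀ i, 3 ≤ (f i).natDegree)
    (hxz : ∀ i, z i ^ 2 = aeval (x i) (f i))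
    (hgen : adjoin L (Set.range x ∪ Set.range z) = ⊤) :
    NumLe ℂ K (d + (r + 1)) (fun _ => False)
      (d + (Finset.univ.filter fun i => 5 ≤ (f i).natDegree).card) := by
  let Ω := AlgebraicClosure K
  let Λ : IntermediateField L Ω := algebraicClosure L Ω
  have hΛ1 : Algebra.IsAlgebraic L Λ := inferInstance
  have hΛ2 : IsAlgClosed Λ := by
    have := (algebraicClosure.isAlgClosure L Ω).isAlgClosed
    exact this
  let F : IntermediateField Λ Ω := adjoin Λ (Set.range (algebraMap K Ω))
  have t0 : IsScalarTower ℂ L Ω := IsScalarTower.of_algebraMap_eq fun a => by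
    rw [IsScalarTower.algebraMap_apply L K Ω, ← IsScalarTower.algebraMap_apply ℂ L K,
      ← IsScalarTower.algebraMap_apply ℂ K Ω]
  let _ : Algebra ℂ Λ := inferInstance
  let _ : Algebra ℂ F := ((algebraMap Λ F).comp (algebraMap ℂ Λ)).toAlgebra
  let φ : K →+* F := (algebraMap K Ω).codRestrict F.toSubfield
    (fun a => subset_adjoin _ _ ⟨a, rfl⟩)
  let _ : Algebra K F := φ.toAlgebra
  have t1 : IsScalarTower L K F := IsScalarTower.of_algebraMap_eq fun a => by
    apply Subtype.ext
    change algebraMap L Ω a = algebraMap K Ω (algebraMap L K a)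
    exact IsScalarTower.algebraMap_apply L K Ω a
  have t2 : IsScalarTower ℂ K F := IsScalarTower.of_algebraMap_eq fun a => by
    apply Subtype.ext
    change algebraMap ℂ Ω a = algebraMap K Ω (algebraMap ℂ K a)
    exact IsScalarTower.algebraMap_apply ℂ K Ω a
  have t3 : IsScalarTower ℂ Λ F := IsScalarTower.of_algebraMap_eq fun a => rfl
  have hgenF : IntermediateField.adjoin Λ (Set.range (algebraMap K F)) = ⊤ := by
    apply lift_injective F
    rw [lift_adjoin, lift_top]
    change adjoin Λ _ = adjoin Λ _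
    congr 1
    rw [← Set.range_comp]
    rfl
  have hessL : Algebra.EssFiniteType ℂ L := ess_sub (K := K)
  exact total_absG (Λ := Λ) (F := F) hessL inferInstance hgenF hcl hL hn hx hfs hd hxz hgen

/-- **The numerical dimension of fibre products of double covers of positive genus.** -/
theorem totalG {K : Type} [Field K] [Algebra ℂ K] [Algebra.EssFiniteType ℂ K] {d e : ℕ}
    (he : 1 ≤ e) (hK : Algebra.trdeg ℂ K = (d + e : ℕ)) {L : IntermediateField ℂ K}
    (hL : Algebra.trdeg ℂ L = d) {x : Fin e → K} (hx : IsTranscendenceBasis L x)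
    {f : Fin e → K[X]} {c z : Fin e → K} (h : HypData L f c x z)
    (hgen : adjoin ℂ ({a | IsAlgebraic L a} ∪ Set.range x ∪ Set.range z) = ⊤) :
    NumLe ℂ K (d + e) (fun _ => False)
      (d + (Finset.univ.filter fun i => 5 ≤ (f i).natDegree).card) := by
  classical
  obtain ⟨r, rfl⟩ := Nat.exists_eq_add_of_le' he
  obtain ⟨L', hL'⟩ : ∃ L' : IntermediateField ℂ K, L' = (algebraicClosure L K).restrictScalars ℂ :=
    ⟨_, rfl⟩
  have hL'm : ∀ a, a ∈ L' ↔ IsAlgebraic L a := fun a => by
    rw [hL', mem_restrictScalars, mem_algebraicClosure_iff]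
  have hLL' : L ≤ L' := fun a ha => (hL'm a).2 (isAlgebraic_algebraMap (⟨a, ha⟩ : L))
  clear hL'
  let _ : Algebra L L' := (inclusion hLL').toRingHom.toAlgebra
  have t1 : IsScalarTower L L' K := IsScalarTower.of_algebraMap_eq fun a => rfl
  have t2 : IsScalarTower ℂ L L' := IsScalarTower.of_algebraMap_eq fun a => rfl
  have halg : Algebra.IsAlgebraic L L' := ⟨fun a => by
    have h1 : IsAlgebraic L (algebraMap L' K a) := (hL'm _).1 a.2
    exact (isAlgebraic_algebraMap_iff (algebraMap L' K).injective).1 h1⟩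
  have hch : CharZero L' := charZero_of_injective_algebraMap (algebraMap ℂ L').injective
  have htr : Algebra.trdeg ℂ L' = d := by
    rw [← _root_.trdeg_add_eq ℂ L (A := L'), trdeg_eq_zero_iff.2 halg, add_zero, hL]
  have htr' : Algebra.trdeg L' K = (r + 1 : ℕ) := by
    have h1 := _root_.trdeg_add_eq ℂ L' (A := K)
    rw [htr, hK] at h1
    push_cast at h1 ⊢
    exact Cardinal.eq_of_add_eq_add_left h1 Cardinal.natCast_lt_aleph0
  have hx' : IsTranscendenceBasis L' x := by
    have h1 : AlgebraicIndependent L' x := hx.1.extendScalars L'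
    refine h1.isTranscendenceBasis_of_lift_trdeg_le_of_finite ?_
    rw [htr']
    simp
  have hex : ∀ j, ∃ g : L'[X], g.map (algebraMap L' K) = C (c j) * f j := by
    intro j
    refine (mem_lifts _).1 ((lifts_iff_coeff_lifts _).2 fun i => ?_)
    rw [coeff_C_mul]
    exact ⟨⟨_, (hL'm _).2 ((h j).2.2.2.2.1.mul ((h j).1 i))⟩, rfl⟩
  choose g hg using hex
  have hgd : ∀ j, (g j).natDegree = (f j).natDegree := by
    intro j
    rw [← natDegree_map (algebraMap L' K), hg, natDegree_C_mul (h j).2.2.2.2.2.1]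
  simp only [← hgd]
  refine num_fibG (L := L') (f := g) (z := z) (fun a ha => ?_) htr hK hx' (fun j => ?_)
    (fun j => ?_) (fun j => ?_) ?_
  · have h1 : a ∈ L' := by
      rw [hL'm]
      have h2 : IsAlgebraic L' a := ha.isAlgebraic
      exact h2.restrictScalars L
    exact ⟨⟨a, h1⟩, rfl⟩
  · have h1 : ((g j).map (algebraMap L' K)).Separable := by
      rw [hg]
      exact (h j).2.2.1.unit_mul (isUnit_C.2 (isUnit_iff_ne_zero.2 (h j).2.2.2.2.2.1))
    exact (separable_map (algebraMap L' K)).1 h1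
  · rw [hgd]
    exact (h j).2.2.2.1
  · rw [← aeval_map_algebraMap K, hg, (h j).2.2.2.2.2.2, coe_aeval_eq_eval, eval_mul, eval_C]
  · rw [eq_top_iff]
    intro a _
    obtain ⟨B, hB⟩ : ∃ B : IntermediateField L' K, B = adjoin L' (Set.range x ∪ Set.range z) :=
      ⟨_, rfl⟩
    rw [← hB]
    obtain ⟨A, hA⟩ : ∃ A : IntermediateField ℂ K, A = B.restrictScalars ℂ := ⟨_, rfl⟩
    have hAm : ∀ b, b ∈ A ↔ b ∈ B := fun b => by
      rw [hA, mem_restrictScalars]
    have h1 : (⊤ : IntermediateField ℂ K) ≤ A := by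
      rw [← hgen, adjoin_le_iff]
      rintro b ((hb | hb) | hb)
      · rw [SetLike.mem_coe, hAm]
        exact B.algebraMap_mem ⟨b, (hL'm b).2 hb⟩
      · rw [SetLike.mem_coe, hAm, hB]
        exact subset_adjoin _ _ (Or.inl hb)
      · rw [SetLike.mem_coe, hAm, hB]
        exact subset_adjoin _ _ (Or.inr hb)
    exact (hAm a).1 (h1 trivial)

end Pool.Agent.Q298.NU
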