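import Pool.Agent.Q298.EF.Prod
import Pool.Agent.Q298.NU.Cur
import Pool.Agent.W619.TW.KN

/-! The numerical dimension of products of superelliptic curves. -/

set_option autoImplicit false
set_option linter.unusedSectionVars false

open Polynomial FF IntermediateField Pool.Agent.W603.LV Pool.Agent.W619.PQ Pool.Agent.W619.PL
  Pool.Agent.W619.TW Pool.Agent.Y191

namespace Pool.Agent.Q298.NU

open Pool.Agent.Q298.EF

variable {k L : Type} [Field k] [Field L] [Algebra k L] [CharZero k] [IsAlgClosed k]

/-- `z ^ m = c ∏ (x - b i) ^ a i` with different `b i`, and `W` is the sum of the weights -/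
def SE (k : Type) {L : Type} [Field k] [Field L] [Algebra k L] (x z : L) (m : ℕ) (W : ℚ) : Prop :=
  1 ≤ m ∧ ∃ (n : ℕ) (b : Fin n → k) (a : Fin n → ℕ) (c : k), Function.Injective b ∧ c ≠ 0 ∧
    z ^ m = algebraMap k L c * ∏ i, (x - algebraMap k L (b i)) ^ a i ∧
    W = ∑ i, wtc m (a i) + wtc m (∑ i, a i)

/-- the function field of a curve -/
theorem isFF_pairC {x z : L} (hx : Transcendental k x) {m : ℕ} (hm : 1 ≤ m) {f : k[X]}
    (hxz : z ^ m = aeval x f) : IsFF k (adjoin k {x, z}) := by
  classical
  refine ⟨?_, ?_⟩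
  · rw [essFiniteType_iff]
    have : ({x, z} : Set L) = (({x, z} : Finset L) : Set L) := by simp
    rw [this]
    exact fg_adjoin_finset _
  · obtain ⟨F, hF⟩ : ∃ F : IntermediateField k L, F = adjoin k {x, z} := ⟨_, rfl⟩
    rw [← hF]
    have hxm : x ∈ F := by
      rw [hF]
      exact subset_adjoin _ _ (by simp)
    have hzm : z ∈ F := by
      rw [hF]
      exact subset_adjoin _ _ (by simp)
    have htr : Transcendental k (⟨x, hxm⟩ : F) := fun h => hx (h.algebraMap (A := L))
    have h1 : AlgebraicIndependent k (fun _ : Unit => (⟨x, hxm⟩ : F)) := by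
      rw [algebraicIndependent_unique_type_iff]
      exact htr
    have h2 : Algebra.IsAlgebraic (adjoin k {(⟨x, hxm⟩ : F)}) F := by
      obtain ⟨A, hA⟩ : ∃ A : IntermediateField k F,
          A = (algebraicClosure (adjoin k {(⟨x, hxm⟩ : F)}) F).restrictScalars k := ⟨_, rfl⟩
      have hAm : ∀ w, w ∈ A ↔ IsAlgebraic (adjoin k {(⟨x, hxm⟩ : F)}) w := fun w => by
        rw [hA, mem_restrictScalars, mem_algebraicClosure_iff]
      have hxA : (⟨x, hxm⟩ : F) ∈ A := by
        rw [hAm]
        exact isAlgebraic_algebraMap (⟨⟨x, hxm⟩, mem_adjoin_simple_self k _⟩ :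
          adjoin k {(⟨x, hxm⟩ : F)})
      have h3 : (⊤ : IntermediateField k F) ≤ A := by
        rw [← adjoin_top x z F hF hxm hzm, adjoin_le_iff]
        rintro w (rfl | hw)
        · exact hxA
        · rw [Set.mem_singleton_iff.1 hw]
          have h4 : (⟨z, hzm⟩ : F) ^ m ∈ A := by
            have h5 : (⟨z, hzm⟩ : F) ^ m = aeval (⟨x, hxm⟩ : F) f := by
              apply Subtype.ext
              have h6 : ((aeval (⟨x, hxm⟩ : F) f : F) : L) = aeval x f :=
                (aeval_algebraMap_apply L (⟨x, hxm⟩ : F) f).symm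
              rw [h6, ← hxz]
              rfl
            rw [h5]
            rw [aeval_eq_sum_range]
            exact sum_mem fun i _ => A.smul_mem (pow_mem hxA i)
          rw [SetLike.mem_coe, hAm]
          rw [hAm] at h4
          exact h4.of_pow (by omega)
      exact ⟨fun w => (hAm w).1 (h3 trivial)⟩
    have h3 : IsTranscendenceBasis k (fun _ : Unit => (⟨x, hxm⟩ : F)) := by
      rw [h1.isTranscendenceBasis_iff_isAlgebraic, Set.range_const]
      exact isAlgebraic_adjoin_iff_top.1 h2
    have h4 := h3.cardinalMk_eq_trdeg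
    rw [← h4]
    simp

/-- the polynomial of the data -/
theorem SE.poly {x z : L} {m : ℕ} {W : ℚ} (h : SE k x z m W) :
    ∃ f : k[X], z ^ m = aeval x f := by
  obtain ⟨-, n, b, a, c, -, -, hz, -⟩ := h
  refine ⟨C c * ∏ i, (X - C (b i)) ^ a i, ?_⟩
  rw [hz, map_mul, aeval_C, map_prod]
  simp

/-- **Products of superelliptic curves.** -/
theorem prod_numC {e : ℕ} (he : Algebra.trdeg k L = e) {x z : Fin e → L} {m : Fin e → ℕ}
    {W : Fin e → ℚ} (hx : ∀ i, Transcendental k (x i)) (hse : ∀ i, SE k (x i) (z i) (m i) (W i))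
    (hW : ∀ i, 2 ≤ W i) (hgen : adjoin k (Set.range x ∪ Set.range z) = ⊤) :
    NumLe k L e (fun _ => False) (Finset.univ.filter fun i => 2 < W i).card := by
  classical
  obtain ⟨F, hF⟩ : ∃ F : Fin e → IntermediateField k L, F = fun i => adjoin k {x i, z i} := ⟨_, rfl⟩
  have hff : ∀ i, IsFF k (F i) := fun i => by
    rw [hF]
    obtain ⟨f, hf⟩ := (hse i).poly
    exact isFF_pairC (hx i) (hse i).1 hf
  have hsup : ⨆ i, F i = ⊤ := by
    rw [eq_top_iff, ← hgen, adjoin_le_iff]
    have h1 : ∀ i, F i ≤ ⨆ i, F i := fun i => le_iSup F i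
    rintro w (⟨i, rfl⟩ | ⟨i, rfl⟩)
    · refine h1 i ?_
      rw [hF]
      exact subset_adjoin _ _ (by simp)
    · refine h1 i ?_
      rw [hF]
      exact subset_adjoin _ _ (by simp)
  have hcan : ∀ i, 0 ≤ canDeg k (F i) ∧ (W i = 2 → canDeg k (F i) = 0) := by
    intro i
    have hxm : x i ∈ F i := by
      rw [hF]
      exact subset_adjoin _ _ (by simp)
    have hzm : z i ∈ F i := by
      rw [hF]
      exact subset_adjoin _ _ (by simp)
    have h1 : Transcendental k (⟨x i, hxm⟩ : F i) := by
      intro h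
      apply hx i
      have := h.algebraMap (A := L)
      exact this
    obtain ⟨hm, n, b, a, c, hb, hc, hz, hWi⟩ := hse i
    have h2 : (⟨z i, hzm⟩ : F i) ^ m i = algebraMap k (F i) c *
        ∏ l, ((⟨x i, hxm⟩ : F i) - algebraMap k (F i) (b l)) ^ a l := by
      apply (algebraMap (F i) L).injective
      rw [map_pow, map_mul, map_prod]
      simp only [map_pow, map_sub, ← IsScalarTower.algebraMap_apply k (F i) L]
      exact hz
    have h3 := adjoin_top (x i) (z i) (F i) (by rw [hF]) hxm hzm
    have h4 := can_cyc h1 hb hc hm h2 h3 (by rw [← hWi]; exact hW i)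
    rw [← hWi] at h4
    exact h4
  have hUB : ∀ i, UB F (E0 := fun i => F i) (fun _ _ => False) i = ∅ := by
    intro i
    ext q
    simp [UB]
  have hld : ∀ i, ld F (E0 := fun i => F i) (fun _ _ => False) i = canDeg k (F i) := by
    intro i
    unfold ld
    rw [hUB]
    simp
  have h1 := num_le (K := L) (E0 := fun i => F i) e he F hsup (fun _ _ => False) (fun _ => False)
    (fun v => by simp) (fun i => by
      rw [hUB]
      exact Set.finite_empty) (fun i => by
      rw [hld]
      exact (hcan i).1)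
  have h2 : (Finset.univ.filter fun i => 0 < ld F (E0 := fun i => F i) (fun _ _ => False) i).card
      ≤ (Finset.univ.filter fun i => 2 < W i).card := by
    refine Finset.card_le_card fun i hi => ?_
    rw [Finset.mem_filter] at hi ⊢
    refine ⟨Finset.mem_univ _, ?_⟩
    by_contra h3
    have h4 := (hcan i).2 (le_antisymm (not_lt.1 h3) (hW i))
    have h5 := hi.2
    rw [hld, h4] at h5
    exact lt_irrefl _ h5
  intro S
  obtain ⟨C, hC⟩ := h1 S
  refine ⟨C, fun m N hm hN => (hC m N hm hN).trans ?_⟩
  exact Nat.mul_le_mul_left C (Nat.pow_le_pow_right hm h2)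

end Pool.Agent.Q298.NU
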