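import Pool.Agent.Q298.EF.Tot
import Pool.Agent.Q298.EF.Fib
import Pool.Agent.Q298.NU.ProdC
import Pool.Agent.Y174.W4
import Pool.Agent.TH585.SV.Hyp2

/-! The numerical dimension of a fibre product of superelliptic curves. -/

set_option autoImplicit false
set_option linter.overlappingInstances false
set_option linter.unusedSectionVars false

open Polynomial FF IntermediateField Pool.Agent.W603.LV Pool.Agent.W619.PQ Pool.Agent.W619.PL
  Pool.Agent.W619.TW Pool.Agent.Y174 Pool.Agent.TH585.SV Pool.Agent.Y191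

namespace Pool.Agent.Q298.NU

open Pool.Agent.Q298.EF

theorem SE.of_fintype {k L : Type} [Field k] [Field L] [Algebra k L] {x z : L} {m : ℕ}
    (hm : 1 ≤ m) {ι : Type} [Fintype ι] {b : ι → k} (hb : Function.Injective b) {a : ι → ℕ} {c : k}
    (hc : c ≠ 0) (hz : z ^ m = algebraMap k L c * ∏ i, (x - algebraMap k L (b i)) ^ a i) :
    SE k x z m (∑ i, wtc m (a i) + wtc m (∑ i, a i)) := by
  classical
  let ε := (Fintype.equivFin ι).symm
  refine ⟨hm, Fintype.card ι, fun i => b (ε i), fun i => a (ε i), c, hb.comp ε.injective, hc, ?_, ?_⟩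
  · rw [hz, ← Equiv.prod_comp ε]
  · rw [← Equiv.sum_comp ε (fun i => wtc m (a i)), ← Equiv.sum_comp ε a]

section

variable {L Λ F : Type} [Field L] [Field Λ] [Field F] [Algebra L Λ] [Algebra Λ F] [Algebra L F]
  [IsScalarTower L Λ F] [IsAlgClosed Λ]

/-- the data over the algebraic closure -/
theorem se_of {x z : F} {m : ℕ} (hm : 1 ≤ m) {s : ℕ} {g : Fin s → L[X]}
    (hsep : (∏ k, g k).Separable) {a : Fin s → ℕ} {c : L} (hc : c ≠ 0)
    (hz : z ^ m = algebraMap L F c * ∏ k, aeval x (g k) ^ a k) :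
    SE Λ x z m (∑ k, (g k).natDegree * wtc m (a k) + wtc m (∑ k, a k * (g k).natDegree)) := by
  classical
  obtain ⟨ψ, hψ⟩ : ∃ ψ : L →+* Λ, ψ = algebraMap L Λ := ⟨_, rfl⟩
  have hψinj : Function.Injective ψ := ψ.injective
  choose n β hn hβ using fun k => Pool.Agent.Q298.MX.split_fin ((g k).map ψ)
  have hdeg : ∀ k, n k = (g k).natDegree := fun k => by
    rw [hn k, natDegree_map_eq_of_injective hψinj]
  have hg0 : ∀ k, g k ≠ 0 := fun k h0 => hsep.ne_zero
    (Finset.prod_eq_zero (Finset.mem_univ k) h0)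
  have hl0 : ∀ k, ((g k).map ψ).leadingCoeff ≠ 0 := fun k =>
    leadingCoeff_ne_zero.2 ((Polynomial.map_ne_zero_iff hψinj).2 (hg0 k))
  have hinj : Function.Injective (fun i : Σ k : Fin s, Fin (n k) => β i.1 i.2) := by
    rw [← Polynomial.separable_prod_X_sub_C_iff]
    have h1 : ((∏ k, g k).map ψ).Separable := hsep.map
    rw [Polynomial.map_prod, Finset.prod_congr rfl fun k _ => hβ k, Finset.prod_mul_distrib] at h1
    rw [Fintype.prod_sigma]
    exact h1.of_mul_right
  have hval : ∀ k, aeval x (g k) = algebraMap Λ F ((g k).map ψ).leadingCoeff *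
      ∏ i, (x - algebraMap Λ F (β k i)) := fun k => by
    have h1 : aeval x (g k) = aeval x ((g k).map ψ) := by
      rw [hψ, aeval_map_algebraMap]
    rw [h1]
    conv_lhs => rw [hβ k]
    rw [map_mul, aeval_C, map_prod]
    simp
  have h1 := SE.of_fintype (x := x) (z := z) hm hinj (a := fun i => a i.1)
    (c := ψ c * ∏ k, ((g k).map ψ).leadingCoeff ^ a k)
    (mul_ne_zero ((map_ne_zero_iff _ hψinj).2 hc)
      (Finset.prod_ne_zero_iff.2 fun k _ => pow_ne_zero _ (hl0 k))) (by
    rw [hz, map_mul, map_prod, Fintype.prod_sigma, mul_assoc, ← Finset.prod_mul_distrib, hψ,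
      ← IsScalarTower.algebraMap_apply L Λ F]
    congr 1
    refine Finset.prod_congr rfl fun k _ => ?_
    rw [hval k, mul_pow, ← Finset.prod_pow, map_pow, hψ])
  rw [Fintype.sum_sigma, Fintype.sum_sigma] at h1
  simp only [Finset.sum_const, Finset.card_univ, Fintype.card_fin, nsmul_eq_mul, smul_eq_mul,
    hdeg] at h1
  have h2 : ∑ k, (g k).natDegree * a k = ∑ k, a k * (g k).natDegree :=
    Finset.sum_congr rfl fun k _ => mul_comm _ _
  rw [h2] at h1
  exact h1

end

section

variable {k L K Λ F : Type} [Field k] [CharZero k] [Field L] [Field K] [Field Λ]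
  [Field F] [Algebra k L] [Algebra k K] [Algebra L K] [IsScalarTower k L K] [Algebra L Λ]
  [Algebra Λ F] [Algebra K F] [Algebra L F] [IsScalarTower L Λ F] [IsScalarTower L K F]
  [Algebra k Λ] [Algebra k F] [IsScalarTower k Λ F] [IsScalarTower k K F]
  [IsScalarTower k L Λ]

/-- **The numerical dimension of the total space.** -/
theorem total_absC (hessL : Algebra.EssFiniteType k L) (hess : Algebra.EssFiniteType k K)
    [Algebra.IsAlgebraic L Λ] [IsAlgClosed Λ]
    (hgenF : IntermediateField.adjoin Λ (Set.range (algebraMap K F)) = ⊤)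
    (hcl : ∀ x : K, IsIntegral L x → ∃ y : L, algebraMap L K y = x)
    {d r : ℕ} (hL : Algebra.trdeg k L = d) (hn : Algebra.trdeg k K = (d + (r + 1) : ℕ))
    {x z : Fin (r + 1) → K} (hx : IsTranscendenceBasis L x) {m : Fin (r + 1) → ℕ}
    {W : Fin (r + 1) → ℚ}
    (hse : ∀ i, SE Λ (algebraMap K F (x i)) (algebraMap K F (z i)) (m i) (W i))
    (hW : ∀ i, 2 ≤ W i) (hgen : adjoin L (Set.range x ∪ Set.range z) = ⊤) :
    NumLe k K (d + (r + 1)) (fun _ => False)
      (d + (Finset.univ.filter fun i => 2 < W i).card) := by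
  classical
  have hL0 : CharZero L := charZero_of_injective_algebraMap (algebraMap k L).injective
  have hΛ0 : CharZero Λ := charZero_of_injective_algebraMap (algebraMap k Λ).injective
  have hLK := trdeg_LK (L := L) hL hn
  have hbF := basis_F (Λ := Λ) (F := F) hLK hgenF hx
  have h1 : NumLe Λ F (r + 1) (fun _ => False) (Finset.univ.filter fun i => 2 < W i).card := by
    refine prod_numC (x := algebraMap K F ∘ x) (z := algebraMap K F ∘ z) (trdeg_F hLK hgenF)
      (fun i => hbF.1.transcendental i) hse hW ?_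
    obtain ⟨A, hA⟩ : ∃ A : IntermediateField Λ F,
        A = adjoin Λ (Set.range (algebraMap K F ∘ x) ∪ Set.range (algebraMap K F ∘ z)) :=
      ⟨_, rfl⟩
    rw [← hA, eq_top_iff, ← hgenF, adjoin_le_iff]
    rintro _ ⟨w, rfl⟩
    have h2 : (⊤ : IntermediateField L K) ≤
        ((A.restrictScalars L).comap (IsScalarTower.toAlgHom L K F)) := by
      rw [← hgen, adjoin_le_iff]
      rintro y (⟨i, rfl⟩ | ⟨i, rfl⟩)
      · change algebraMap K F (x i) ∈ A
        rw [hA]
        exact subset_adjoin _ _ (Or.inl ⟨i, rfl⟩)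
      · change algebraMap K F (z i) ∈ A
        rw [hA]
        exact subset_adjoin _ _ (Or.inr ⟨i, rfl⟩)
    exact h2 (by trivial : w ∈ (⊤ : IntermediateField L K))
  exact easy_add (F := F) (Λ := Λ) hessL hess hgenF hcl hL hn h1

end

/-- the geometric generic fibre exists -/
theorem num_fibC {L K : Type} [Field L] [Field K] [Algebra ℂ L] [Algebra ℂ K] [Algebra L K]
    [IsScalarTower ℂ L K] [Algebra.EssFiniteType ℂ K]
    (hcl : ∀ x : K, IsIntegral L x → ∃ y : L, algebraMap L K y = x)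
    {d r : ℕ} (hL : Algebra.trdeg ℂ L = d) (hn : Algebra.trdeg ℂ K = (d + (r + 1) : ℕ))
    {x z : Fin (r + 1) → K} (hx : IsTranscendenceBasis L x) {m s : Fin (r + 1) → ℕ}
    (hm : ∀ i, 1 ≤ m i) {g : ∀ i, Fin (s i) → L[X]} (hsep : ∀ i, (∏ k, g i k).Separable)
    {a : ∀ i, Fin (s i) → ℕ} {c : Fin (r + 1) → L} (hc : ∀ i, c i ≠ 0)
    (hxz : ∀ i, z i ^ m i = algebraMap L K (c i) * ∏ k, aeval (x i) (g i k) ^ a i k)
    {W : Fin (r + 1) → ℚ} (hWd : ∀ i, W i = ∑ k, (g i k).natDegree * wtc (m i) (a i k) +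
      wtc (m i) (∑ k, a i k * (g i k).natDegree)) (hW : ∀ i, 2 ≤ W i)
    (hgen : adjoin L (Set.range x ∪ Set.range z) = ⊤) :
    NumLe ℂ K (d + (r + 1)) (fun _ => False)
      (d + (Finset.univ.filter fun i => 2 < W i).card) := by
  let Ω := AlgebraicClosure K
  let Λ : IntermediateField L Ω := algebraicClosure L Ω
  have hΛ1 : Algebra.IsAlgebraic L Λ := inferInstance
  have hΛ2 : IsAlgClosed Λ := by
    have := (algebraicClosure.isAlgClosure L Ω).isAlgClosed
    exact this
  let F : IntermediateField Λ Ω := adjoin Λ (Set.range (algebraMap K Ω))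
  have t0 : IsScalarTower ℂ L Ω := IsScalarTower.of_algebraMap_eq fun a => by
    rw [IsScalarTower.algebraMap_apply L K Ω, ← IsScalarTower.algebraMap_apply ℂ L K,
      ← IsScalarTower.algebraMap_apply ℂ K Ω]
  let _ : Algebra ℂ Λ := inferInstance
  let _ : Algebra ℂ F := ((algebraMap Λ F).comp (algebraMap ℂ Λ)).toAlgebra
  let φ : K →+* F := (algebraMap K Ω).codRestrict F.toSubfield
    (fun a => subset_adjoin _ _ ⟨a, rfl⟩)
  let _ : Algebra K F := φ.toAlgebra
  have t1 : IsScalarTower L K F := IsScalarTower.of_algebraMap_eq fun a => by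
    apply Subtype.ext
    change algebraMap L Ω a = algebraMap K Ω (algebraMap L K a)
    exact IsScalarTower.algebraMap_apply L K Ω a
  have t2 : IsScalarTower ℂ K F := IsScalarTower.of_algebraMap_eq fun a => by
    apply Subtype.ext
    change algebraMap ℂ Ω a = algebraMap K Ω (algebraMap ℂ K a)
    exact IsScalarTower.algebraMap_apply ℂ K Ω a
  have t3 : IsScalarTower ℂ Λ F := IsScalarTower.of_algebraMap_eq fun a => rfl
  have hgenF : IntermediateField.adjoin Λ (Set.range (algebraMap K F)) = ⊤ := by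
    apply lift_injective F
    rw [lift_adjoin, lift_top]
    change adjoin Λ _ = adjoin Λ _
    congr 1
    rw [← Set.range_comp]
    rfl
  have hessL : Algebra.EssFiniteType ℂ L := ess_sub (K := K)
  refine total_absC (Λ := Λ) (F := F) (m := m) hessL inferInstance hgenF hcl hL hn hx (fun i => ?_) hW hgen
  rw [hWd]
  refine se_of (L := L) (Λ := Λ) (F := F) (hm i) (hsep i) (hc i) ?_
  rw [← map_pow, hxz, map_mul, map_prod, ← IsScalarTower.algebraMap_apply L K F]
  congr 1
  refine Finset.prod_congr rfl fun k _ => ?_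
  rw [map_pow, aeval_algebraMap_apply]

/-- **The numerical dimension of fibre products of superelliptic curves.** -/
theorem cyc_num {K : Type} [Field K] [Algebra ℂ K] [Algebra.EssFiniteType ℂ K] {d e : ℕ}
    (he : 1 ≤ e) (hK : Algebra.trdeg ℂ K = (d + e : ℕ)) {F : IntermediateField ℂ K}
    (hF : Algebra.trdeg ℂ F = d) (hcl : ∀ a : K, IsAlgebraic F a → a ∈ F) {x z : Fin e → K}
    {m s : Fin e → ℕ} {g : ∀ j, Fin (s j) → Polynomial F} {a : ∀ j, Fin (s j) → ℕ} {c : Fin e → K}
    (h : CycData F x z m s g a c) (hW : ∀ j, 2 ≤ wsum m s g a j) :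
    NumLe ℂ K (d + e) (fun _ => False)
      (d + (Finset.univ.filter fun j => 2 < wsum m s g a j).card) := by
  classical
  obtain ⟨r, rfl⟩ := Nat.exists_eq_add_of_le' he
  refine num_fibC (L := F) (x := x) (z := z) (m := m) (s := s) (g := g) (a := a)
    (c := fun i => ⟨c i, (h.cst i).1⟩) (fun w hw => ⟨⟨w, hcl w hw.isAlgebraic⟩, rfl⟩) hF hK h.bas
    h.pos h.sep (fun i h0 => (h.cst i).2 (congrArg Subtype.val h0)) (fun i => h.eq i)
    (fun i => rfl) hW ?_
  rw [eq_top_iff]
  intro w _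
  obtain ⟨B, hB⟩ : ∃ B : IntermediateField F K, B = adjoin F (Set.range x ∪ Set.range z) :=
    ⟨_, rfl⟩
  rw [← hB]
  obtain ⟨A, hA⟩ : ∃ A : IntermediateField ℂ K, A = B.restrictScalars ℂ := ⟨_, rfl⟩
  have hAm : ∀ b, b ∈ A ↔ b ∈ B := fun b => by
    rw [hA, mem_restrictScalars]
  have h1 : (⊤ : IntermediateField ℂ K) ≤ A := by
    rw [← h.top, adjoin_le_iff]
    rintro b ((hb | hb) | hb)
    · rw [SetLike.mem_coe, hAm]
      exact B.algebraMap_mem ⟨b, hb⟩
    · rw [SetLike.mem_coe, hAm, hB]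
      exact subset_adjoin _ _ (Or.inl hb)
    · rw [SetLike.mem_coe, hAm, hB]
      exact subset_adjoin _ _ (Or.inr hb)
  exact (hAm w).1 (h1 trivial)

end Pool.Agent.Q298.NU
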