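import Pool.Agent.Q298.EF.Gen

/-! Curves `y ^ 2 = f (x)` with `f` of degree at least three: the canonical degree is not negative. -/

set_option autoImplicit false

open Polynomial FF Pool.Agent.W603.LV

namespace Pool.Agent.Q298.NU

open Pool.Agent.Q298.EF

variable {k K : Type*} [Field k] [Field K] [Algebra k K] [CharZero k] [IsFF k K] [IsAlgClosed k]

/-- **Curves of positive genus.** -/
theorem canDeg_nonneg {x y : K} (hx : Transcendental k x) {f : k[X]} (hfs : f.Separable)
    (hd : 3 ≤ f.natDegree) (hxy : y ^ 2 = aeval x f)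
    (hgen : IntermediateField.adjoin k {x, y} = ⊤) : 0 ≤ canDeg k K := by
  classical
  have hf0 : f ≠ 0 := hfs.ne_zero
  have hfx : aeval x f ≠ 0 := fun h => hx ⟨f, hf0, h⟩
  have hy0 : y ≠ 0 := by
    rintro rfl
    rw [zero_pow two_ne_zero] at hxy
    exact hfx hxy.symm
  have hx0 : x ≠ 0 := by
    rintro rfl
    exact hx isAlgebraic_zero
  obtain ⟨D0, hD0⟩ : ∃ D0 : Derivation k K K, D0 = der k K := ⟨_, rfl⟩
  have hD0n : D0 ≠ 0 := by
    rw [hD0]
    exact der_ne
  have hDx0 : D0 x ≠ 0 := der_ne_zero hD0n hx
  obtain ⟨D, hDd⟩ : ∃ D : Derivation k K K, D = (y / D0 x) • D0 := ⟨_, rfl⟩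
  have hDx : D x = y := by
    rw [hDd, Derivation.smul_apply, smul_eq_mul]
    field_simp
  have hD : D ≠ 0 := by
    rintro h
    rw [h] at hDx
    exact hy0 hDx.symm
  obtain ⟨m, hm, hn⟩ : ∃ m, f.natDegree ≤ 2 * (m + 2) ∧
      (f.natDegree = 2 * (m + 2) ∨ f.natDegree = 2 * (m + 2) - 1) := by
    refine ⟨(f.natDegree + 1) / 2 - 2, ?_, ?_⟩ <;> omega
  have key : ∀ P : Place k K, vo P D ≤ 0 := by
    intro P
    by_cases hPx : Ge P 0 x
    · obtain ⟨a, ha⟩ := exists_const P hPx
      refine le_of_eq (vo_zero P (f := f) (c := 1) (fun h => hx ?_) ha hxy hy0 ?_ hgen hD one_ne_zero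
        (by rw [map_one, one_mul, hDx]))
      · rw [h]
        exact isAlgebraic_algebraMap a
      · by_contra hcon
        push Not at hcon
        obtain ⟨u, v, huv⟩ := hfs
        have h1 := congrArg (eval a) huv
        rw [eval_add, eval_mul, eval_mul, hcon.1, hcon.2, eval_one] at h1
        simp at h1
    · have hPo : P.ord x < 0 := by
        by_contra hcon
        exact hPx (Or.inr (not_lt.1 hcon))
      have hinv : P.ord x⁻¹ = - P.ord x := P.ord_inv x
      obtain ⟨g, hg⟩ : ∃ g, g = reflect (2 * (m + 2)) f := ⟨_, rfl⟩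
      have h1 : aeval x⁻¹ g * x ^ (2 * (m + 2)) = aeval x f := by
        have hinvx : Invertible x := invertibleOfNonzero hx0
        have h2 := eval₂_reflect_mul_pow (algebraMap k K) x (2 * (m + 2)) f hm
        rw [invOf_eq_inv] at h2
        rw [hg]
        exact h2
      have hg0 : g.eval 0 = f.coeff (2 * (m + 2)) := by
        rw [← coeff_zero_eq_eval_zero, hg, coeff_reflect]
        rw [revAt_le (Nat.zero_le _), Nat.sub_zero]
      have hg1 : g.derivative.eval 0 = f.coeff (2 * (m + 2) - 1) := by
        rw [← coeff_zero_eq_eval_zero, coeff_derivative, hg, coeff_reflect]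
        rw [revAt_le (by omega)]
        simp
      obtain ⟨D', hD'⟩ : ∃ D' : Derivation k K K, D' = (x⁻¹ ^ m) • D := ⟨_, rfl⟩
      have hxm0 : x⁻¹ ^ m ≠ 0 := pow_ne_zero _ (inv_ne_zero hx0)
      have hD'0 : D' ≠ 0 := by
        rw [hD']
        intro h0
        have h3 := congrArg (fun E : Derivation k K K => E x) h0
        change (x⁻¹ ^ m) * D x = 0 at h3
        rw [hDx] at h3
        exact mul_ne_zero hxm0 hy0 h3
      have h5 : vo P D' = 0 := by
        refine vo_zero P (x := x⁻¹) (y := y / x ^ (m + 2)) (a := 0) (f := g) (c := -1) ?_ ?_ ?_ ?_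
          ?_ ?_ hD'0 (by norm_num) ?_
        · rw [map_zero]
          exact inv_ne_zero hx0
        · right
          rw [map_zero, sub_zero, hinv]
          omega
        · rw [div_pow, hxy, ← h1, ← pow_mul, mul_comm (m + 2) 2]
          rw [mul_div_assoc, div_self (pow_ne_zero _ hx0), mul_one]
        · exact div_ne_zero hy0 (pow_ne_zero _ hx0)
        · rw [hg0, hg1]
          rcases hn with h | h
          · left
            rw [← h]
            exact leadingCoeff_ne_zero.2 hf0
          · right
            rw [← h]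
            exact leadingCoeff_ne_zero.2 hf0
        · rw [eq_top_iff, ← hgen, IntermediateField.adjoin_le_iff]
          have h2 : x⁻¹ ∈ IntermediateField.adjoin k {x⁻¹, y / x ^ (m + 2)} :=
            IntermediateField.subset_adjoin _ _ (by simp)
          have h3 : y / x ^ (m + 2) ∈ IntermediateField.adjoin k {x⁻¹, y / x ^ (m + 2)} :=
            IntermediateField.subset_adjoin _ _ (by simp)
          have h4 : x ∈ IntermediateField.adjoin k {x⁻¹, y / x ^ (m + 2)} := by
            have := inv_mem h2
            rwa [inv_inv] at this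
          rintro z (rfl | hz)
          · exact h4
          · rw [Set.mem_singleton_iff.1 hz]
            have h5 := mul_mem h3 (pow_mem h4 (m + 2))
            rwa [div_mul_cancel₀ _ (pow_ne_zero _ hx0)] at h5
        · rw [hD', Derivation.smul_apply, D.leibniz_inv, hDx, map_neg, map_one, smul_eq_mul,
            smul_eq_mul, pow_add, inv_pow]
          have := pow_ne_zero m hx0
          field_simp
      rw [hD', vo_smul P hD hxm0, P.ord_pow, hinv] at h5
      have h6 : (0 : ℤ) ≤ (m : ℤ) * (-P.ord x) := mul_nonneg (Int.natCast_nonneg m) (by omega)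
      linarith
  have h := canDeg_finset hD (vo_finite hD).toFinset fun P hP => by
    rw [Set.Finite.mem_toFinset]
    exact hP
  have h2 : ∑ P ∈ (vo_finite hD).toFinset, vo P D ≤ 0 := Finset.sum_nonpos fun P _ => key P
  linarith

end Pool.Agent.Q298.NU
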