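import Pool.Agent.Q298.EF.Prod
import Pool.Agent.Q298.NU.Gen
import Pool.Agent.W619.TW.KN

/-! The numerical dimension of products of curves of positive genus. -/

set_option autoImplicit false

open Polynomial FF IntermediateField Pool.Agent.W603.LV Pool.Agent.W619.PQ Pool.Agent.W619.PL
  Pool.Agent.W619.TW

namespace Pool.Agent.Q298.NU

open Pool.Agent.Q298.EF

variable {k L : Type} [Field k] [Field L] [Algebra k L] [CharZero k] [IsAlgClosed k]

/-- **Products of curves of positive genus.** -/
theorem prod_numG {e : ℕ} (he : Algebra.trdeg k L = e) {x z : Fin e → L}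
    (hx : ∀ i, Transcendental k (x i)) {f : Fin e → k[X]} (hfs : ∀ i, (f i).Separable)
    (hd : ∀ i, 3 ≤ (f i).natDegree)
    (hxz : ∀ i, z i ^ 2 = aeval (x i) (f i))
    (hgen : adjoin k (Set.range x ∪ Set.range z) = ⊤) : 
    NumLe k L e (fun _ => False) (Finset.univ.filter fun i => 5 ≤ (f i).natDegree).card := by
  classical
  obtain ⟨F, hF⟩ : ∃ F : Fin e → IntermediateField k L, F = fun i => adjoin k {x i, z i} := ⟨_, rfl⟩
  have hff : ∀ i, IsFF k (F i) := fun i => by
    rw [hF]
    exact isFF_pair (hx i) (hxz i)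
  have hsup : ⨆ i, F i = ⊤ := by
    rw [eq_top_iff, ← hgen, adjoin_le_iff]
    have h1 : ∀ i, F i ≤ ⨆ i, F i := fun i => le_iSup F i
    rintro w (⟨i, rfl⟩ | ⟨i, rfl⟩)
    · refine h1 i ?_
      rw [hF]
      exact subset_adjoin _ _ (by simp)
    · refine h1 i ?_
      rw [hF]
      exact subset_adjoin _ _ (by simp)
  have hcan : ∀ i, 0 ≤ canDeg k (F i) ∧ ((f i).natDegree ≤ 4 → canDeg k (F i) = 0) := by
    intro i
    have hxm : x i ∈ F i := by
      rw [hF]
      exact subset_adjoin _ _ (by simp)
    have hzm : z i ∈ F i := by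
      rw [hF]
      exact subset_adjoin _ _ (by simp)
    have h1 : Transcendental k (⟨x i, hxm⟩ : F i) := by
      intro h
      apply hx i
      have := h.algebraMap (A := L)
      exact this
    have h2 : (⟨z i, hzm⟩ : F i) ^ 2 = aeval (⟨x i, hxm⟩ : F i) (f i) := by
      apply Subtype.ext
      have h1 : ((aeval (⟨x i, hxm⟩ : F i) (f i) : F i) : L) = aeval (x i) (f i) := by
        have := aeval_algebraMap_apply L (⟨x i, hxm⟩ : F i) (f i)
        exact this.symm
      rw [h1, ← hxz i]
      rfl
    have h3 := adjoin_top (x i) (z i) (F i) (by rw [hF]) hxm hzm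
    refine ⟨canDeg_nonneg h1 (hfs i) (hd i) h2 h3, fun h4 => ?_⟩
    have h5 := hd i
    exact canDeg_zero h1 (hfs i) (by omega) h2 h3
  have hUB : ∀ i, UB F (E0 := fun i => F i) (fun _ _ => False) i = ∅ := by
    intro i
    ext q
    simp [UB]
  have hld : ∀ i, ld F (E0 := fun i => F i) (fun _ _ => False) i = canDeg k (F i) := by
    intro i
    unfold ld
    rw [hUB]
    simp
  have h1 := num_le (K := L) (E0 := fun i => F i) e he F hsup (fun _ _ => False) (fun _ => False)
    (fun v => by simp) (fun i => by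
      rw [hUB]
      exact Set.finite_empty) (fun i => by
      rw [hld]
      exact (hcan i).1)
  have h2 : (Finset.univ.filter fun i => 0 < ld F (E0 := fun i => F i) (fun _ _ => False) i).card
      ≤ (Finset.univ.filter fun i => 5 ≤ (f i).natDegree).card := by
    refine Finset.card_le_card fun i hi => ?_
    rw [Finset.mem_filter] at hi ⊢
    refine ⟨Finset.mem_univ _, ?_⟩
    by_contra h3
    have h4 := (hcan i).2 (by omega)
    have h5 := hi.2
    rw [hld, h4] at h5
    exact lt_irrefl _ h5
  intro S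
  obtain ⟨C, hC⟩ := h1 S
  refine ⟨C, fun m N hm hN => (hC m N hm hN).trans ?_⟩
  exact Nat.mul_le_mul_left C (Nat.pow_le_pow_right hm h2)

end Pool.Agent.Q298.NU
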