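import Pool.Agent.Q298.EF.Tot
import Pool.Agent.Q298.NU.Prod
import Pool.Agent.Y174.W4

/-! The numerical dimension of a fibre product of double covers of positive genus. -/

set_option autoImplicit false
set_option linter.overlappingInstances false
set_option linter.unusedSectionVars false

open Polynomial FF IntermediateField Pool.Agent.W603.LV Pool.Agent.W619.PQ Pool.Agent.W619.PL
  Pool.Agent.W619.TW Pool.Agent.Y174

namespace Pool.Agent.Q298.NU

open Pool.Agent.Q298.EF

section

variable {k L K Λ F : Type} [Field k] [CharZero k] [Field L] [Field K] [Field Λ]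
  [Field F] [Algebra k L] [Algebra k K] [Algebra L K] [IsScalarTower k L K] [Algebra L Λ]
  [Algebra Λ F] [Algebra K F] [Algebra L F] [IsScalarTower L Λ F] [IsScalarTower L K F]
  [Algebra k Λ] [Algebra k F] [IsScalarTower k Λ F] [IsScalarTower k K F]
  [IsScalarTower k L Λ]

/-- **The numerical dimension of the total space.** -/
theorem total_absG (hessL : Algebra.EssFiniteType k L) (hess : Algebra.EssFiniteType k K)
    [Algebra.IsAlgebraic L Λ] [IsAlgClosed Λ]
    (hgenF : IntermediateField.adjoin Λ (Set.range (algebraMap K F)) = ⊤)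
    (hcl : ∀ x : K, IsIntegral L x → ∃ y : L, algebraMap L K y = x)
    {d r : ℕ} (hL : Algebra.trdeg k L = d) (hn : Algebra.trdeg k K = (d + (r + 1) : ℕ))
    {x z : Fin (r + 1) → K} (hx : IsTranscendenceBasis L x) {f : Fin (r + 1) → L[X]}
    (hfs : ∀ i, (f i).Separable) (hd : ∀ i, 3 ≤ (f i).natDegree)
    (hxz : ∀ i, z i ^ 2 = aeval (x i) (f i))
    (hgen : adjoin L (Set.range x ∪ Set.range z) = ⊤) :
    NumLe k K (d + (r + 1)) (fun _ => False)
      (d + (Finset.univ.filter fun i => 5 ≤ (f i).natDegree).card) := by
  classical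
  have hL0 : CharZero L := charZero_of_injective_algebraMap (algebraMap k L).injective
  have hΛ0 : CharZero Λ := charZero_of_injective_algebraMap (algebraMap k Λ).injective
  have hLK := trdeg_LK (L := L) hL hn
  have hbF := basis_F (Λ := Λ) (F := F) hLK hgenF hx
  have h1 : NumLe Λ F (r + 1) (fun _ => False)
      (Finset.univ.filter fun i => 5 ≤ (f i).natDegree).card := by
    have h0 := prod_numG (x := algebraMap K F ∘ x) (z := algebraMap K F ∘ z)
      (f := fun i => (f i).map (algebraMap L Λ)) (trdeg_F hLK hgenF)
      (fun i => hbF.1.transcendental i) (fun i => (hfs i).map) (fun i => by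
        rw [natDegree_map]
        exact hd i) (fun i => by
        rw [Function.comp_apply, Function.comp_apply, ← map_pow, hxz i, aeval_map_algebraMap,
          aeval_algebraMap_apply]) (by
      obtain ⟨A, hA⟩ : ∃ A : IntermediateField Λ F,
          A = adjoin Λ (Set.range (algebraMap K F ∘ x) ∪ Set.range (algebraMap K F ∘ z)) :=
        ⟨_, rfl⟩
      rw [← hA, eq_top_iff, ← hgenF, adjoin_le_iff]
      rintro _ ⟨w, rfl⟩
      have h2 : (⊤ : IntermediateField L K) ≤
          ((A.restrictScalars L).comap (IsScalarTower.toAlgHom L K F)) := by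
        rw [← hgen, adjoin_le_iff]
        rintro y (⟨i, rfl⟩ | ⟨i, rfl⟩)
        · change algebraMap K F (x i) ∈ A
          rw [hA]
          exact subset_adjoin _ _ (Or.inl ⟨i, rfl⟩)
        · change algebraMap K F (z i) ∈ A
          rw [hA]
          exact subset_adjoin _ _ (Or.inr ⟨i, rfl⟩)
      exact h2 (by trivial : w ∈ (⊤ : IntermediateField L K)))
    simpa only [natDegree_map] using h0
  exact easy_add (F := F) (Λ := Λ) hessL hess hgenF hcl hL hn h1

end

end Pool.Agent.Q298.NU
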